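import Pool.Agent.Q151.UM.CLAb

set_option autoImplicit false

/-! Project UM12 (helper97), job CLA (helper151). -/

open Filter Topology MeasureTheory Complex
open Pool.Agent.Q97.UM Pool.Agent.Q96.UM

namespace Pool.Agent.Q151.UM

noncomputable section

open Classical in
lemma win' {f : ℝ → ℝ} {A B : ℝ} (hf : IntervalIntegrable f volume A B) (F : Finset ℂ) (ω : ℂ → ℝ)
    (r : ℝ) :
    IntervalIntegrable (fun t => (∑ s ∈ F.filter (fun s => |s.im - t| ≤ r), ω s) * f t) volume A B ∧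
    ∫ t in A..B, (∑ s ∈ F.filter (fun s => |s.im - t| ≤ r), ω s) * f t =
      ∑ s ∈ F, ω s * ∫ t in A..B, Set.indicator (Set.Icc (s.im - r) (s.im + r)) f t := by
  have hi : ∀ s : ℂ, IntervalIntegrable (Set.indicator (Set.Icc (s.im - r) (s.im + r)) f)
      volume A B := by
    intro s
    rw [intervalIntegrable_iff] at hf ⊢
    exact hf.indicator measurableSet_Icc
  have h1 : ∀ t : ℝ, (∑ s ∈ F.filter (fun s => |s.im - t| ≤ r), ω s) * f t =
      ∑ s ∈ F, ω s * Set.indicator (Set.Icc (s.im - r) (s.im + r)) f t := by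
    intro t
    rw [Finset.sum_filter, Finset.sum_mul]
    refine Finset.sum_congr rfl fun s _ => ?_
    by_cases h : |s.im - t| ≤ r
    · rw [if_pos h, Set.indicator_of_mem ((Pool.Agent.Q61.UM.mem_win _ _ _).2 h)]
    · rw [if_neg h, Set.indicator_of_notMem (fun h' => h ((Pool.Agent.Q61.UM.mem_win _ _ _).1 h'))]
      ring
  constructor
  · have e : (fun t => (∑ s ∈ F.filter (fun s => |s.im - t| ≤ r), ω s) * f t) =
        ∑ s ∈ F, fun t => ω s * Set.indicator (Set.Icc (s.im - r) (s.im + r)) f t := by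
      funext t
      rw [h1, Finset.sum_apply]
    rw [e]
    exact IntervalIntegrable.sum F fun s _ => (hi s).const_mul _
  · simp_rw [h1]
    rw [intervalIntegral.integral_finsetSum fun s _ => (hi s).const_mul _]
    refine Finset.sum_congr rfl fun s _ => ?_
    rw [intervalIntegral.integral_const_mul]

theorem t_CLA : J_CLA := by
  classical
  rintro hTHP hSTM hDSC - ⟨θ, c, C, hθ, hθ4, hc, hC, hTail⟩
  obtain ⟨θ₁, δ₀, hθ₁, hδ₀, hT4⟩ := hTHP 4
  obtain ⟨η, hη⟩ : ∃ η, η = c / 80 := ⟨_, rfl⟩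
  have hη0 : 0 < η := by rw [hη]; positivity
  obtain ⟨C4, hC4, hS4⟩ := hSTM θ c C hθ hθ4 hc hC hTail 4 η hη0 (by push_cast; rw [hη]; linarith)
  obtain ⟨C2, hC2, hS2⟩ := hSTM θ c C hθ hθ4 hc hC hTail 2 η hη0 (by push_cast; rw [hη]; linarith)
  obtain ⟨C1, hC1, hDS⟩ := hDSC (θ / 2) η 1 C2 (by positivity) (by linarith) hη0 hC2 hS2
  obtain ⟨B, hB0, hB⟩ := N2_e1
  have hZ0 := Z0_nonneg
  refine ⟨min δ₀ (θ / 4), η, lt_min hδ₀ (by linarith), hη0, fun δ hδ hδ2 => ?_⟩
  obtain ⟨C₀, hC₀, hT'⟩ := hT4 δ hδ (hδ2.trans (min_le_left _ _))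
  refine ⟨4 * (9 * (C4 + C₀) + C1 * ((2 * Z0) ^ 2 + B + Z0)), by positivity, ?_⟩
  filter_upwards [hT', hS4, hDS, eventually_ge_atTop (Real.exp 2), eventually_ge_atTop 16]
    with T h1 h4 hd hTe hT16
  have hT0 : 0 < T := by linarith
  have hT1 : 1 ≤ T := by linarith
  have hL2 : 2 ≤ Real.log T := by rw [Real.le_log_iff_exp_le hT0]; exact hTe
  have hL : 0 < Real.log T := by linarith
  have hr : 1 / Real.log T ≤ 1 := by rw [div_le_one hL]; linarith
  have hr0 : 0 < 1 / Real.log T := by positivity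
  obtain ⟨X, hX⟩ : ∃ X, X = ⌊T ^ δ⌋₊ := ⟨_, rfl⟩
  rw [← hX] at h1 ⊢
  have hN1 : ((1 : ℕ) : ℝ) ≤ T ^ θ₁ := by
    rw [Nat.cast_one]; exact Real.one_le_rpow hT1 hθ₁.le
  have hN1' : ((1 : ℕ) : ℝ) ≤ T ^ (θ / 2) := by
    rw [Nat.cast_one]; exact Real.one_le_rpow hT1 (by positivity)
  have hδθ : δ ≤ θ / 4 := hδ2.trans (min_le_right _ _)
  have hXT : (X : ℝ) ≤ T ^ δ := by rw [hX]; exact Nat.floor_le (by positivity)
  have hXa : (X : ℝ) ≤ T ^ (θ / 2) :=
    hXT.trans (Real.rpow_le_rpow_of_exponent_le hT1 (by linarith))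
  have hXb : ((X ^ 2 : ℕ) : ℝ) ≤ T ^ (θ / 2) := by
    push_cast
    calc (X : ℝ) ^ 2 ≤ (T ^ δ) ^ 2 := pow_le_pow_left₀ (Nat.cast_nonneg _) hXT 2
      _ = T ^ (δ * 2) := by rw [← Real.rpow_natCast, ← Real.rpow_mul hT0.le]; norm_num
      _ ≤ T ^ (θ / 2) := Real.rpow_le_rpow_of_exponent_le hT1 (by linarith)
  have hXl : ∀ n : ℕ, 1 ≤ n → n ≤ X → Real.log n ≤ Real.log T := by
    intro n hn hnX
    refine Real.log_le_log (by exact_mod_cast hn) ?_
    calc (n : ℝ) ≤ X := by exact_mod_cast hnX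
      _ ≤ T ^ δ := hXT
      _ ≤ T ^ (1 : ℝ) := Real.rpow_le_rpow_of_exponent_le hT1 (by linarith)
      _ = T := Real.rpow_one T
  obtain ⟨i4, j4⟩ := h1 1 hN1 (fun _ => 1)
  rw [N2_one, mul_one] at j4
  simp only [dp_one, norm_one, one_pow, mul_one] at i4 j4
  have k4 := h4 1 hN1' (fun _ => 1)
  rw [N2_one, mul_one] at k4
  simp only [dp_one, norm_one, one_pow, mul_one] at k4
  have i4' : IntervalIntegrable (fun t => Dd X t ^ 4) volume (T / 2) (4 * T) := by
    refine i4.congr fun t _ => ?_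
    show |Dd X t| ^ 4 = Dd X t ^ 4
    exact Even.pow_abs (by decide) _
  have j4' : ∫ t in (T / 2)..(4 * T), Dd X t ^ 4 ≤ C₀ * T := by
    refine le_trans (le_of_eq ?_) j4
    refine intervalIntegral.integral_congr fun t _ => ?_
    show Dd X t ^ 4 = |Dd X t| ^ 4
    exact (Even.pow_abs (by decide) _).symm
  have hMe := Dd_meas X
  have iM : IntervalIntegrable (fun t => 1 + Dd X t ^ 4) volume (T / 2) (4 * T) :=
    IntervalIntegrable.add (by simp) i4'
  have i2 : IntervalIntegrable (fun t => Dd X t ^ 2) volume (T / 2) (4 * T) := by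
    refine iM.mono_fun' (hMe.pow_const 2).aestronglyMeasurable (Eventually.of_forall fun t => ?_)
    show ‖Dd X t ^ 2‖ ≤ 1 + Dd X t ^ 4
    rw [Real.norm_eq_abs, abs_of_nonneg (sq_nonneg _)]
    nlinarith [sq_nonneg (Dd X t ^ 2 - 1)]
  have i1 : IntervalIntegrable (Dd X) volume (T / 2) (4 * T) := by
    refine iM.mono_fun' hMe.aestronglyMeasurable (Eventually.of_forall fun t => ?_)
    show ‖Dd X t‖ ≤ 1 + Dd X t ^ 4
    rw [Real.norm_eq_abs, abs_le]
    constructor <;> nlinarith [sq_nonneg (Dd X t ^ 2 - 1), sq_nonneg (Dd X t - 1), sq_nonneg (Dd X t + 1)]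
  have cS : Continuous (SS η T) := Pool.Agent.Q257.UM.SS_cont hL.le
  have S0 : ∀ t, 0 ≤ SS η T t := fun t => Pool.Agent.Q257.UM.SS_nonneg η T t
  have iS : IntervalIntegrable (fun t => SS η T t * Dd X t ^ 2) volume (T / 2) (4 * T) :=
    i2.continuousOn_mul cS.continuousOn
  have iS2 : IntervalIntegrable (fun t => SS η T t ^ 2 * Dd X t ^ 2) volume (T / 2) (4 * T) :=
    i2.continuousOn_mul (cS.pow 2).continuousOn
  have hAB : T / 2 ≤ 4 * T := by linarith
  obtain ⟨F, hF⟩ : ∃ F, F = H370.Zf riemannZeta T (2 * T) := ⟨_, rfl⟩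
  rw [← hF] at hd ⊢
  have hFm : ∀ s ∈ F, s ∈ ZD T ∧ T < s.im ∧ s.im ≤ 2 * T := by
    intro s hs
    rw [hF, H370.mem_Zf H370.good_zeta (by linarith)] at hs
    obtain ⟨a1, a2, a3, a4, a5⟩ := hs
    exact ⟨(Pool.Agent.Q257.UM.mem_ZD hT16 s).2 ⟨a1, a2, by linarith, by linarith, a5⟩, a3, a4⟩
  -- the windows
  have hW : ∀ s ∈ F, T / 2 ≤ s.im - 1 / Real.log T ∧ s.im + 1 / Real.log T ≤ 4 * T := by
    intro s hs
    obtain ⟨-, b1, b2⟩ := hFm s hs
    constructor <;> linarith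
  have sub : ∀ (f : ℝ → ℝ), IntervalIntegrable f volume (T / 2) (4 * T) → ∀ s ∈ F,
      IntervalIntegrable f volume (s.im - 1 / Real.log T) (s.im + 1 / Real.log T) := by
    intro f hf s hs
    obtain ⟨b1, b2⟩ := hW s hs
    refine hf.mono_set ?_
    rw [Set.uIcc_of_le (by linarith), Set.uIcc_of_le hAB]
    exact Set.Icc_subset_Icc b1 b2
  -- the main part
  have main : ∑ s ∈ F, (mz s : ℝ) * (SS η T s.im * (Real.log T / 2 *
      ∫ t in (s.im - 1 / Real.log T)..(s.im + 1 / Real.log T), Dd X t ^ 2)) ≤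
      9 * (C4 + C₀) * (Real.log T * T) := by
    have st1 : ∑ s ∈ F, (mz s : ℝ) * (SS η T s.im * (Real.log T / 2 *
        ∫ t in (s.im - 1 / Real.log T)..(s.im + 1 / Real.log T), Dd X t ^ 2)) ≤
        ∑ s ∈ F, Real.log T / 2 * 9 * ((mz s : ℝ) *
          ∫ t in (T / 2)..(4 * T), Set.indicator (Set.Icc (s.im - 1 / Real.log T)
            (s.im + 1 / Real.log T)) (fun t => SS η T t * Dd X t ^ 2) t) := by
      refine Finset.sum_le_sum fun s hs => ?_
      obtain ⟨b1, b2⟩ := hW s hs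
      rw [Pool.Agent.Q61.UM.ind_in b1 (by linarith) b2]
      have b3 : SS η T s.im * (∫ t in (s.im - 1 / Real.log T)..(s.im + 1 / Real.log T), Dd X t ^ 2) ≤
          9 * ∫ t in (s.im - 1 / Real.log T)..(s.im + 1 / Real.log T), SS η T t * Dd X t ^ 2 := by
        rw [← intervalIntegral.integral_const_mul, ← intervalIntegral.integral_const_mul]
        refine intervalIntegral.integral_mono_on (by linarith) ((sub _ i2 s hs).const_mul _)
          ((sub _ iS s hs).const_mul _) fun t ht => ?_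
        obtain ⟨ht1, ht2⟩ := ht
        have h3 : |s.im - t| ≤ 2 / Real.log T := by
          have : 2 / Real.log T = 1 / Real.log T + 1 / Real.log T := by ring
          rw [this, abs_le]
          constructor <;> linarith
        have h5 := Pool.Agent.Q257.UM.SS_cmp (δ := η) hL h3
        calc SS η T s.im * Dd X t ^ 2 ≤ (9 * SS η T t) * Dd X t ^ 2 := by gcongr
          _ = _ := by ring
      calc (mz s : ℝ) * (SS η T s.im * (Real.log T / 2 *
            ∫ t in (s.im - 1 / Real.log T)..(s.im + 1 / Real.log T), Dd X t ^ 2)) =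
          (mz s : ℝ) * (Real.log T / 2) * (SS η T s.im *
            ∫ t in (s.im - 1 / Real.log T)..(s.im + 1 / Real.log T), Dd X t ^ 2) := by ring
        _ ≤ (mz s : ℝ) * (Real.log T / 2) *
            (9 * ∫ t in (s.im - 1 / Real.log T)..(s.im + 1 / Real.log T), SS η T t * Dd X t ^ 2) := by
            gcongr
        _ = _ := by ring
    refine st1.trans ?_
    obtain ⟨w1, w2⟩ := win' iS F (fun s => (mz s : ℝ)) (1 / Real.log T)
    rw [← Finset.mul_sum, ← w2]
    have st2 : ∫ t in (T / 2)..(4 * T), (∑ s ∈ F.filter (fun s => |s.im - t| ≤ 1 / Real.log T),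
        (mz s : ℝ)) * (SS η T t * Dd X t ^ 2) ≤
        ∫ t in (T / 2)..(4 * T), 2 * (SS η T t ^ 4 + Dd X t ^ 4) := by
      refine intervalIntegral.integral_mono_on hAB w1
        ((((cS.pow 4).intervalIntegrable _ _).add i4').const_mul _) fun t _ => ?_
      have h3 : ∑ s ∈ F.filter (fun s => |s.im - t| ≤ 1 / Real.log T), (mz s : ℝ) ≤
          4 * SS η T t := by
        refine le_trans ?_ (Pool.Agent.Q257.UM.cnt_le hη0.le hL)
        refine Finset.sum_le_sum_of_subset_of_nonneg (fun s hs => ?_) fun _ _ _ => Nat.cast_nonneg _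
        rw [Finset.mem_filter] at hs ⊢
        exact ⟨(hFm s hs.1).1, hs.2⟩
      have h5 := S0 t
      calc (∑ s ∈ F.filter (fun s => |s.im - t| ≤ 1 / Real.log T), (mz s : ℝ)) *
            (SS η T t * Dd X t ^ 2) ≤ 4 * SS η T t * (SS η T t * Dd X t ^ 2) := by gcongr
        _ ≤ 2 * (SS η T t ^ 4 + Dd X t ^ 4) := by
          nlinarith [sq_nonneg (SS η T t ^ 2 - Dd X t ^ 2)]
    have st3 : ∫ t in (T / 2)..(4 * T), 2 * (SS η T t ^ 4 + Dd X t ^ 4) ≤ 2 * (C4 * T + C₀ * T) := by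
      have i5 : IntervalIntegrable (fun t => SS η T t ^ 4) volume (T / 2) (4 * T) :=
        (cS.pow 4).intervalIntegrable _ _
      rw [intervalIntegral.integral_const_mul, intervalIntegral.integral_add i5 i4']
      have h5 : ∫ t in (T / 2)..(4 * T), SS η T t ^ 4 ≤ ∫ t in (T / 4)..(8 * T), SS η T t ^ 4 :=
        intervalIntegral.integral_mono_interval (by linarith) hAB (by linarith)
          (Eventually.of_forall fun t => by have := S0 t; positivity)
          ((cS.pow 4).intervalIntegrable _ _)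
      have h6 := h5.trans k4
      linarith
    have st4 := st2.trans st3
    calc Real.log T / 2 * 9 * _ ≤ Real.log T / 2 * 9 * (2 * (C4 * T + C₀ * T)) := by gcongr
      _ = _ := by ring
  -- the rest
  have r1 := hd 1 hN1' (fun _ => 1)
  rw [N2_one, mul_one] at r1
  simp only [dp_one, norm_one, one_pow, mul_one, pow_one] at r1
  have r2 := hd X hXa (e1 X (Real.log T))
  have r3 := hd (X ^ 2) hXb (e2 X (Real.log T))
  simp only [pow_one] at r2 r3
  have r2' : C1 * Real.log T * (T * N2 X (e1 X (Real.log T))) ≤ C1 * Real.log T * (T * B) := by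
    have := hB X (Real.log T) hL hXl
    gcongr
  have r3' : C1 * Real.log T * (T * N2 (X ^ 2) (e2 X (Real.log T))) ≤
      C1 * Real.log T * (T * Z0) := by
    have := N2_e2 X hL
    gcongr
  calc ∑ s ∈ F, (mz s : ℝ) * (SS η T s.im * (LM T s.im - (dp X (pc X) s.im).re) ^ 2)
      ≤ ∑ s ∈ F, (4 * ((mz s : ℝ) * (SS η T s.im * (Real.log T / 2 *
          ∫ t in (s.im - 1 / Real.log T)..(s.im + 1 / Real.log T), Dd X t ^ 2))) +
        4 * ((2 * Z0) ^ 2 * ((mz s : ℝ) * SS η T s.im)) +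
        4 * ((mz s : ℝ) * (SS η T s.im * ‖dp X (e1 X (Real.log T)) s.im‖ ^ 2)) +
        4 * ((mz s : ℝ) * (SS η T s.im * ‖dp (X ^ 2) (e2 X (Real.log T)) s.im‖ ^ 2))) := by
        refine Finset.sum_le_sum fun s hs => ?_
        have h3 := point hL X (sub _ i1 s hs) (sub _ i2 s hs)
        have h5 := S0 s.im
        have h6 : (0 : ℝ) ≤ mz s := Nat.cast_nonneg _
        have h7 := mul_le_mul_of_nonneg_left h3 (mul_nonneg h6 h5)
        calc (mz s : ℝ) * (SS η T s.im * (LM T s.im - (dp X (pc X) s.im).re) ^ 2) =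
            (mz s : ℝ) * SS η T s.im * (LM T s.im - (dp X (pc X) s.im).re) ^ 2 := by ring
          _ ≤ _ := h7
          _ = _ := by ring
    _ = 4 * (∑ s ∈ F, (mz s : ℝ) * (SS η T s.im * (Real.log T / 2 *
          ∫ t in (s.im - 1 / Real.log T)..(s.im + 1 / Real.log T), Dd X t ^ 2))) +
        4 * ((2 * Z0) ^ 2 * ∑ s ∈ F, (mz s : ℝ) * SS η T s.im) +
        4 * (∑ s ∈ F, (mz s : ℝ) * (SS η T s.im * ‖dp X (e1 X (Real.log T)) s.im‖ ^ 2)) +
        4 * (∑ s ∈ F, (mz s : ℝ) * (SS η T s.im * ‖dp (X ^ 2) (e2 X (Real.log T)) s.im‖ ^ 2)) := by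
        rw [Finset.sum_add_distrib, Finset.sum_add_distrib, Finset.sum_add_distrib, Finset.mul_sum,
          Finset.mul_sum, Finset.mul_sum, Finset.mul_sum, Finset.mul_sum]
    _ ≤ 4 * (9 * (C4 + C₀) * (Real.log T * T)) + 4 * ((2 * Z0) ^ 2 * (C1 * Real.log T * T)) +
        4 * (C1 * Real.log T * (T * B)) + 4 * (C1 * Real.log T * (T * Z0)) := by
        gcongr
        · exact r2.trans r2'
        · exact r3.trans r3'
    _ = _ := by ring

end

end Pool.Agent.Q151.UM
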