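import Pool.Agent.Q97.UM.Stm19
import Pool.Agent.Q96.UM.CLZ
import Pool.Agent.Q257.UM.Cm
import Pool.Agent.Q178.UM.PR

set_option autoImplicit false

/-! Project UM12 (helper97), job CLA (helper151): averages over short windows. -/

open Filter Topology MeasureTheory Complex
open Pool.Agent.Q97.UM Pool.Agent.Q96.UM

namespace Pool.Agent.Q151.UM

noncomputable section

lemma z_cont {n : ℕ} (hn : 1 ≤ n) : Continuous fun t : ℝ => (n : ℂ) ^ (-(1 / 2 + t * I)) := by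
  refine Continuous.const_cpow (by fun_prop) (Or.inl ?_)
  have : n ≠ 0 := by omega
  exact_mod_cast this

lemma dp_cont (M : ℕ) (c : ℕ → ℂ) : Continuous (dp M c) := by
  unfold dp
  refine continuous_finsetSum _ fun n hn => continuous_const.mul (z_cont (Finset.mem_Icc.1 hn).1)

lemma EP_cont (X : ℕ) : Continuous (EP X) := by
  unfold EP
  refine (continuous_finsetSum _ fun p hp => ?_).neg
  have h2 := (Finset.mem_filter.1 hp).2
  refine Continuous.log ((continuous_const.sub (z_cont h2.one_le)).norm) fun t => ?_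
  have h3 := z_small h2 t
  intro h0
  rw [norm_eq_zero, sub_eq_zero] at h0
  rw [← h0] at h3
  norm_num at h3

lemma zt_cont : Continuous zt := by
  unfold zt
  rw [continuous_iff_continuousAt]
  intro t
  have h : (1 / 2 + (t : ℂ) * I) ≠ 1 := by
    intro h
    have := congrArg Complex.re h
    simp at this
  exact (differentiableAt_riemannZeta h).continuousAt.comp (f := fun t : ℝ => 1 / 2 + (t : ℂ) * I)
    (by fun_prop)

lemma EP_lin (X : ℕ) (t : ℝ) :
    |EP X t - (dp X (pc X) t).re - 1 / 2 * (dp (X ^ 2) (c2 X) t).re| ≤ 2 * Z0 := by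
  classical
  obtain ⟨P, hP⟩ : ∃ P, P = (Finset.Icc 1 X).filter Nat.Prime := ⟨_, rfl⟩
  have e1 : dp X (pc X) t = ∑ p ∈ P, (p : ℂ) ^ (-(1 / 2 + t * I)) := by
    unfold dp
    rw [hP, Finset.sum_filter]
    refine Finset.sum_congr rfl fun n hn => ?_
    unfold pc
    have hn2 := (Finset.mem_Icc.1 hn).2
    by_cases h : n.Prime
    · rw [if_pos ⟨h, hn2⟩, if_pos h, one_mul]
    · rw [if_neg (fun h' => h h'.1), if_neg h, zero_mul]
  have e2 : dp (X ^ 2) (c2 X) t = ∑ p ∈ P, ((p : ℂ) ^ (-(1 / 2 + t * I))) ^ 2 := by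
    unfold dp
    rw [sum_sq X (fun n => c2 X n * (n : ℂ) ^ (-(1 / 2 + t * I))), ← hP]
    · refine Finset.sum_congr rfl fun p hp => ?_
      rw [hP] at hp
      obtain ⟨h1, h2⟩ := Finset.mem_filter.1 hp
      have h3 : c2 X (p ^ 2) = 1 := if_pos ⟨p, h2, (Finset.mem_Icc.1 h1).2, rfl⟩
      rw [h3, one_mul]
      push_cast
      rw [← Complex.natCast_cpow_natCast_mul]
      rw [← Complex.cpow_nat_mul]
    · intro n hn
      have : c2 X n = 0 := if_neg hn
      rw [this, zero_mul]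
  have e3 : EP X t - (dp X (pc X) t).re - 1 / 2 * (dp (X ^ 2) (c2 X) t).re =
      ∑ p ∈ P, (-Real.log ‖1 - (p : ℂ) ^ (-(1 / 2 + t * I))‖ - ((p : ℂ) ^ (-(1 / 2 + t * I))).re -
        1 / 2 * (((p : ℂ) ^ (-(1 / 2 + t * I))) ^ 2).re) := by
    rw [e1, e2, re_sum, re_sum, Finset.mul_sum, Finset.sum_sub_distrib, Finset.sum_sub_distrib]
    unfold EP
    rw [Finset.sum_neg_distrib, hP]
  rw [e3]
  refine (Finset.abs_sum_le_sum_abs _ _).trans ?_
  calc _ ≤ ∑ p ∈ P, 2 * ((p : ℝ) ^ (3 / 2 : ℝ))⁻¹ := by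
        refine Finset.sum_le_sum fun p hp => ?_
        rw [hP] at hp
        have h2 := (Finset.mem_filter.1 hp).2
        rw [← z_cube h2 t]
        exact log_tail (z_small h2 t)
    _ ≤ 2 * Z0 := by
      rw [← Finset.mul_sum]
      exact mul_le_mul_of_nonneg_left (Z0_le P) (by norm_num)

/-- the Cauchy-Schwarz inequality -/
lemma cs {f : ℝ → ℝ} {c d : ℝ} (hcd : c < d) (hf : IntervalIntegrable f volume c d)
    (hf2 : IntervalIntegrable (fun t => f t ^ 2) volume c d) :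
    (∫ t in c..d, f t) ^ 2 ≤ (d - c) * ∫ t in c..d, f t ^ 2 := by
  obtain ⟨J, hJ⟩ : ∃ J, J = ∫ t in c..d, f t := ⟨_, rfl⟩
  obtain ⟨K, hK⟩ : ∃ K, K = ∫ t in c..d, f t ^ 2 := ⟨_, rfl⟩
  obtain ⟨m, hm⟩ : ∃ m, m = J / (d - c) := ⟨_, rfl⟩
  have hdc : 0 < d - c := by linarith
  have h0 : 0 ≤ ∫ t in c..d, (f t - m) ^ 2 :=
    intervalIntegral.integral_nonneg hcd.le fun t _ => sq_nonneg _
  have h1 : ∫ t in c..d, (f t - m) ^ 2 = K - 2 * m * J + m ^ 2 * (d - c) := by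
    have e : (fun t => (f t - m) ^ 2) = fun t => (f t ^ 2 - (2 * m) * f t) + m ^ 2 := by
      funext t
      ring
    rw [e, intervalIntegral.integral_add (hf2.sub (hf.const_mul _)) (by simp),
      intervalIntegral.integral_sub hf2 (hf.const_mul _), intervalIntegral.integral_const_mul,
      intervalIntegral.integral_const, smul_eq_mul, ← hJ, ← hK]
    ring
  rw [h1] at h0
  have h2 : m * (d - c) = J := by rw [hm]; field_simp
  rw [← hJ, ← hK]
  have h3 : (d - c) * (K - 2 * m * J + m ^ 2 * (d - c)) = (d - c) * K - J ^ 2 := by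
    have : (d - c) * (K - 2 * m * J + m ^ 2 * (d - c)) =
      (d - c) * K - 2 * (m * (d - c)) * J + (m * (d - c)) ^ 2 := by ring
    rw [this, h2]
    ring
  have h4 := mul_nonneg hdc.le h0
  rw [h3] at h4
  linarith

/-- the factor of `n ^ (-1/2-it)` in the window average -/
def Sn (L : ℝ) (n : ℕ) : ℂ := ((L / 2 : ℝ) : ℂ) * ∫ v in (-(1 / L))..(1 / L), (n : ℂ) ^ (-((v : ℂ) * I))

lemma n_cont {n : ℕ} (hn : 1 ≤ n) : Continuous fun v : ℝ => (n : ℂ) ^ (-((v : ℂ) * I)) := by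
  refine Continuous.const_cpow (by fun_prop) (Or.inl ?_)
  have : n ≠ 0 := by omega
  exact_mod_cast this

lemma n_norm {n : ℕ} (hn : 1 ≤ n) (v : ℝ) : ‖(n : ℂ) ^ (-((v : ℂ) * I))‖ = 1 := by
  rw [Complex.norm_natCast_cpow_of_pos (by omega)]
  simp

lemma n_sub {n : ℕ} (hn : 1 ≤ n) (v : ℝ) : ‖(n : ℂ) ^ (-((v : ℂ) * I)) - 1‖ ≤ |v| * Real.log n := by
  have hn0 : (n : ℂ) ≠ 0 := by
    have : n ≠ 0 := by omega
    exact_mod_cast this
  have e : (n : ℂ) ^ (-((v : ℂ) * I)) = cexp (I * ((-(v * Real.log n) : ℝ) : ℂ)) := by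
    rw [Complex.cpow_def_of_ne_zero hn0]
    congr 1
    rw [← Complex.ofReal_natCast, ← Complex.ofReal_log (Nat.cast_nonneg n)]
    push_cast
    ring
  rw [e]
  refine Real.norm_exp_I_mul_ofReal_sub_one_le.trans (le_of_eq ?_)
  rw [Real.norm_eq_abs, abs_neg, abs_mul, abs_of_nonneg (Real.log_natCast_nonneg n)]

lemma Sn_le {L : ℝ} (hL : 0 < L) {n : ℕ} (hn : 1 ≤ n) : ‖Sn L n‖ ≤ 1 := by
  unfold Sn
  rw [norm_mul]
  have h1 : ‖∫ v in (-(1 / L))..(1 / L), (n : ℂ) ^ (-((v : ℂ) * I))‖ ≤ 1 * |1 / L - -(1 / L)| :=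
    intervalIntegral.norm_integral_le_of_norm_le_const fun v _ => (n_norm hn v).le
  have h2 : |1 / L - -(1 / L)| = 2 / L := by
    have : 1 / L - -(1 / L) = 2 / L := by ring
    rw [this, abs_of_pos (by positivity)]
  rw [h2, one_mul] at h1
  have h3 : ‖((L / 2 : ℝ) : ℂ)‖ = L / 2 := by
    rw [Complex.norm_real, Real.norm_eq_abs, abs_of_pos (by positivity)]
  rw [h3]
  calc L / 2 * _ ≤ L / 2 * (2 / L) := by gcongr
    _ = 1 := by field_simp

lemma Sn_sub {L : ℝ} (hL : 0 < L) {n : ℕ} (hn : 1 ≤ n) : ‖Sn L n - 1‖ ≤ Real.log n / L := by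
  have e : Sn L n - 1 = ((L / 2 : ℝ) : ℂ) *
      ∫ v in (-(1 / L))..(1 / L), ((n : ℂ) ^ (-((v : ℂ) * I)) - 1) := by
    rw [intervalIntegral.integral_sub ((n_cont hn).intervalIntegrable _ _) (by simp),
      intervalIntegral.integral_const]
    unfold Sn
    rw [mul_sub]
    congr 1
    have h1 : (1 / L - -(1 / L)) = 2 / L := by ring
    rw [h1, Complex.real_smul, mul_one, ← Complex.ofReal_mul]
    have h2 : L / 2 * (2 / L) = 1 := by field_simp
    rw [h2, Complex.ofReal_one]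
  rw [e, norm_mul]
  have hlog := Real.log_natCast_nonneg n
  have h1 : ‖∫ v in (-(1 / L))..(1 / L), ((n : ℂ) ^ (-((v : ℂ) * I)) - 1)‖ ≤
      (1 / L * Real.log n) * |1 / L - -(1 / L)| := by
    refine intervalIntegral.norm_integral_le_of_norm_le_const fun v hv => (n_sub hn v).trans ?_
    have h0 : 0 < 1 / L := by positivity
    rw [Set.uIoc_of_le (by linarith)] at hv
    have : |v| ≤ 1 / L := abs_le.2 ⟨hv.1.le, hv.2⟩
    gcongr
  have h2 : |1 / L - -(1 / L)| = 2 / L := by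
    have : 1 / L - -(1 / L) = 2 / L := by ring
    rw [this, abs_of_pos (by positivity)]
  rw [h2] at h1
  have h3 : ‖((L / 2 : ℝ) : ℂ)‖ = L / 2 := by
    rw [Complex.norm_real, Real.norm_eq_abs, abs_of_pos (by positivity)]
  rw [h3]
  calc L / 2 * _ ≤ L / 2 * (1 / L * Real.log n * (2 / L)) := by gcongr
    _ = _ := by field_simp

/-- the average of a Dirichlet polynomial -/
lemma avg_dp (L γ : ℝ) (M : ℕ) (c : ℕ → ℂ) :
    ((L / 2 : ℝ) : ℂ) * ∫ u in (γ - 1 / L)..(γ + 1 / L), dp M c u =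
      dp M (fun n => c n * Sn L n) γ := by
  have h1 : ∫ u in (γ - 1 / L)..(γ + 1 / L), dp M c u =
      ∑ n ∈ Finset.Icc 1 M, c n * (n : ℂ) ^ (-(1 / 2 + (γ : ℂ) * I)) *
        ∫ v in (-(1 / L))..(1 / L), (n : ℂ) ^ (-((v : ℂ) * I)) := by
    have e0 : ∫ u in (γ - 1 / L)..(γ + 1 / L), dp M c u =
        ∫ u in (γ - 1 / L)..(γ + 1 / L), ∑ n ∈ Finset.Icc 1 M, c n * (n : ℂ) ^ (-(1 / 2 + (u : ℂ) * I)) :=
      rfl
    rw [e0, intervalIntegral.integral_finsetSum fun n hn =>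
      ((z_cont (Finset.mem_Icc.1 hn).1).const_mul _).intervalIntegrable _ _]
    refine Finset.sum_congr rfl fun n hn => ?_
    have hn1 := (Finset.mem_Icc.1 hn).1
    have hn0 : (n : ℂ) ≠ 0 := by
      have : n ≠ 0 := by omega
      exact_mod_cast this
    have e1 : (-(1 / L)) + γ = γ - 1 / L := by ring
    have e2 : (1 / L) + γ = γ + 1 / L := by ring
    rw [← e1, ← e2, ← intervalIntegral.integral_comp_add_right
      (fun u : ℝ => c n * (n : ℂ) ^ (-(1 / 2 + (u : ℂ) * I))) γ,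
      ← intervalIntegral.integral_const_mul]
    refine intervalIntegral.integral_congr fun v _ => ?_
    show c n * (n : ℂ) ^ (-(1 / 2 + ((v + γ : ℝ) : ℂ) * I)) =
      c n * (n : ℂ) ^ (-(1 / 2 + (γ : ℂ) * I)) * (n : ℂ) ^ (-((v : ℂ) * I))
    rw [mul_assoc, ← Complex.cpow_add _ _ hn0]
    congr 2
    push_cast
    ring
  rw [h1]
  unfold dp
  rw [Finset.mul_sum]
  refine Finset.sum_congr rfl fun n _ => ?_
  unfold Sn
  ring

lemma avg_re (L γ : ℝ) (M : ℕ) (c : ℕ → ℂ) :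
    L / 2 * ∫ u in (γ - 1 / L)..(γ + 1 / L), (dp M c u).re =
      (dp M (fun n => c n * Sn L n) γ).re := by
  have h1 : ∫ u in (γ - 1 / L)..(γ + 1 / L), (dp M c u).re =
      (∫ u in (γ - 1 / L)..(γ + 1 / L), dp M c u).re :=
    Complex.reCLM.intervalIntegral_comp_comm ((dp_cont M c).intervalIntegrable _ _)
  rw [h1, ← avg_dp, Complex.re_ofReal_mul]

end

end Pool.Agent.Q151.UM
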