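import Pool.Agent.Q151.UM.CLAa

set_option autoImplicit false

/-! Project UM12 (helper97), job CLA (helper151): the local mean against the prime sum. -/

open Filter Topology MeasureTheory Complex
open Pool.Agent.Q97.UM Pool.Agent.Q96.UM

namespace Pool.Agent.Q151.UM

noncomputable section

/-- the logarithm of the quotient of zeta and the Euler product -/
def Dd (X : ℕ) (t : ℝ) : ℝ := Real.log ‖zt t‖ - EP X t

lemma Dd_meas (X : ℕ) : Measurable (Dd X) := by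
  unfold Dd
  exact (Real.measurable_log.comp zt_cont.norm.measurable).sub (EP_cont X).measurable

/-- coefficients of the average of `P` minus `P` -/
def e1 (X : ℕ) (L : ℝ) (n : ℕ) : ℂ := pc X n * (Sn L n - 1)

/-- coefficients of the average of the squares -/
def e2 (X : ℕ) (L : ℝ) (n : ℕ) : ℂ := c2 X n * Sn L n

lemma dp_e1 (X : ℕ) (L t : ℝ) :
    dp X (fun n => pc X n * Sn L n) t - dp X (pc X) t = dp X (e1 X L) t := by
  unfold dp e1
  rw [← Finset.sum_sub_distrib]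
  refine Finset.sum_congr rfl fun n _ => ?_
  ring

/-- the pointwise bound -/
lemma point {T γ : ℝ} (hL : 0 < Real.log T) (X : ℕ)
    (h1 : IntervalIntegrable (Dd X) volume (γ - 1 / Real.log T) (γ + 1 / Real.log T))
    (h2 : IntervalIntegrable (fun t => Dd X t ^ 2) volume (γ - 1 / Real.log T) (γ + 1 / Real.log T)) :
    (LM T γ - (dp X (pc X) γ).re) ^ 2 ≤
      4 * (Real.log T / 2 * (∫ t in (γ - 1 / Real.log T)..(γ + 1 / Real.log T), Dd X t ^ 2) +
        (2 * Z0) ^ 2 + ‖dp X (e1 X (Real.log T)) γ‖ ^ 2 + ‖dp (X ^ 2) (e2 X (Real.log T)) γ‖ ^ 2) := by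
  obtain ⟨L, hLe⟩ : ∃ L, L = Real.log T := ⟨_, rfl⟩
  rw [← hLe] at hL h1 h2 ⊢
  have hr : 0 < 1 / L := by positivity
  have hcd : γ - 1 / L < γ + 1 / L := by linarith
  have hlen : γ + 1 / L - (γ - 1 / L) = 2 / L := by ring
  have iE : ∀ f : ℝ → ℝ, Continuous f → IntervalIntegrable f volume (γ - 1 / L) (γ + 1 / L) :=
    fun f hf => hf.intervalIntegrable _ _
  have cP : Continuous fun u => (dp X (pc X) u).re := Complex.continuous_re.comp (dp_cont _ _)
  have cQ : Continuous fun u => (dp (X ^ 2) (c2 X) u).re := Complex.continuous_re.comp (dp_cont _ _)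
  have a1 : LM T γ = L / 2 * (∫ u in (γ - 1 / L)..(γ + 1 / L), Dd X u) +
      L / 2 * ∫ u in (γ - 1 / L)..(γ + 1 / L), EP X u := by
    unfold LM
    rw [← hLe, ← mul_add, ← intervalIntegral.integral_add h1 (iE _ (EP_cont X))]
    congr 1
    refine intervalIntegral.integral_congr fun u _ => ?_
    show Real.log ‖zt u‖ = Dd X u + EP X u
    unfold Dd
    ring
  have a2 : L / 2 * (∫ u in (γ - 1 / L)..(γ + 1 / L), EP X u) =
      L / 2 * (∫ u in (γ - 1 / L)..(γ + 1 / L),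
        (EP X u - (dp X (pc X) u).re - 1 / 2 * (dp (X ^ 2) (c2 X) u).re)) +
      (dp X (fun n => pc X n * Sn L n) γ).re +
      1 / 2 * (dp (X ^ 2) (fun n => c2 X n * Sn L n) γ).re := by
    have i1 := iE (fun u => EP X u - (dp X (pc X) u).re) ((EP_cont X).sub cP)
    have i2 := iE (fun u => 1 / 2 * (dp (X ^ 2) (c2 X) u).re) (continuous_const.mul cQ)
    rw [← avg_re, ← avg_re, intervalIntegral.integral_sub i1 i2,
      intervalIntegral.integral_sub (iE _ (EP_cont X)) (iE _ cP),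
      intervalIntegral.integral_const_mul]
    ring
  have a3 : |L / 2 * (∫ u in (γ - 1 / L)..(γ + 1 / L),
        (EP X u - (dp X (pc X) u).re - 1 / 2 * (dp (X ^ 2) (c2 X) u).re))| ≤ 2 * Z0 := by
    rw [abs_mul, abs_of_pos (by positivity : 0 < L / 2)]
    have h3 : ‖∫ u in (γ - 1 / L)..(γ + 1 / L),
        (EP X u - (dp X (pc X) u).re - 1 / 2 * (dp (X ^ 2) (c2 X) u).re)‖ ≤
        2 * Z0 * |γ + 1 / L - (γ - 1 / L)| :=
      intervalIntegral.norm_integral_le_of_norm_le_const fun u _ => EP_lin X u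
    rw [hlen, abs_of_pos (by positivity : 0 < 2 / L), Real.norm_eq_abs] at h3
    calc L / 2 * _ ≤ L / 2 * (2 * Z0 * (2 / L)) := by gcongr
      _ = 2 * Z0 := by field_simp
  have a4 : (L / 2 * (∫ u in (γ - 1 / L)..(γ + 1 / L), Dd X u)) ^ 2 ≤
      L / 2 * ∫ t in (γ - 1 / L)..(γ + 1 / L), Dd X t ^ 2 := by
    have h3 := cs hcd h1 h2
    rw [hlen] at h3
    calc (L / 2 * (∫ u in (γ - 1 / L)..(γ + 1 / L), Dd X u)) ^ 2 =
        (L / 2) ^ 2 * (∫ u in (γ - 1 / L)..(γ + 1 / L), Dd X u) ^ 2 := by ring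
      _ ≤ (L / 2) ^ 2 * (2 / L * ∫ t in (γ - 1 / L)..(γ + 1 / L), Dd X t ^ 2) := by gcongr
      _ = _ := by field_simp
  have a5 := congrArg Complex.re (dp_e1 X L γ)
  rw [Complex.sub_re] at a5
  have a6 := Complex.abs_re_le_norm (dp X (e1 X L) γ)
  have a7 := Complex.abs_re_le_norm (dp (X ^ 2) (e2 X L) γ)
  have a8 : dp (X ^ 2) (fun n => c2 X n * Sn L n) γ = dp (X ^ 2) (e2 X L) γ := rfl
  rw [a8] at a2
  obtain ⟨A, hA⟩ : ∃ A, A = L / 2 * (∫ u in (γ - 1 / L)..(γ + 1 / L), Dd X u) := ⟨_, rfl⟩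
  obtain ⟨E, hE⟩ : ∃ E, E = L / 2 * (∫ u in (γ - 1 / L)..(γ + 1 / L),
        (EP X u - (dp X (pc X) u).re - 1 / 2 * (dp (X ^ 2) (c2 X) u).re)) := ⟨_, rfl⟩
  obtain ⟨U, hU⟩ : ∃ U, U = (dp X (e1 X L) γ).re := ⟨_, rfl⟩
  obtain ⟨V, hV⟩ : ∃ V, V = (dp (X ^ 2) (e2 X L) γ).re := ⟨_, rfl⟩
  rw [← hA] at a1 a4
  rw [← hE] at a2 a3
  rw [← hU] at a5 a6
  rw [← hV] at a2 a7
  have b1 : LM T γ - (dp X (pc X) γ).re = A + E + U + 1 / 2 * V := by
    rw [a1, a2]
    linarith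
  rw [b1]
  have b2 : E ^ 2 ≤ (2 * Z0) ^ 2 := by
    rw [← sq_abs]
    exact pow_le_pow_left₀ (abs_nonneg _) a3 2
  have b3 : U ^ 2 ≤ ‖dp X (e1 X L) γ‖ ^ 2 := by
    rw [← sq_abs]
    exact pow_le_pow_left₀ (abs_nonneg _) a6 2
  have b4 : V ^ 2 ≤ ‖dp (X ^ 2) (e2 X L) γ‖ ^ 2 := by
    rw [← sq_abs]
    exact pow_le_pow_left₀ (abs_nonneg _) a7 2
  nlinarith [sq_nonneg (A - E), sq_nonneg (A - U), sq_nonneg (A - 1 / 2 * V), sq_nonneg (E - U),
    sq_nonneg (E - 1 / 2 * V), sq_nonneg (U - 1 / 2 * V), sq_nonneg V]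

/-- the mean square of the first coefficients -/
lemma N2_e1 : ∃ B : ℝ, 0 ≤ B ∧ ∀ (X : ℕ) (L : ℝ), 0 < L → (∀ n : ℕ, 1 ≤ n → n ≤ X → Real.log n ≤ L) →
    N2 X (e1 X L) ≤ B := by
  classical
  obtain ⟨B, hB1, hB⟩ := Pool.Agent.Q178.UM.PR.sum_upto
  refine ⟨B, by linarith, fun X L hL hX => ?_⟩
  have h1 := hB (1 / L) 1 ((Finset.Icc 1 X).filter Nat.Prime) (by positivity) one_pos
    (fun p hp => (Finset.mem_filter.1 hp).2)
  rw [mul_one] at h1
  refine le_trans ?_ h1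
  have h2 : ((Finset.Icc 1 X).filter Nat.Prime).filter (fun p : ℕ => 1 / L * Real.log p ≤ 1) =
      (Finset.Icc 1 X).filter Nat.Prime := by
    rw [Finset.filter_eq_self]
    intro p hp
    obtain ⟨h3, -⟩ := Finset.mem_filter.1 hp
    obtain ⟨h4, h5⟩ := Finset.mem_Icc.1 h3
    have := hX p h4 h5
    rw [one_div, inv_mul_le_iff₀ hL, mul_one]
    exact this
  rw [h2]
  unfold N2
  rw [Finset.sum_filter]
  refine Finset.sum_le_sum fun n hn => ?_
  obtain ⟨h4, h5⟩ := Finset.mem_Icc.1 hn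
  have hn0 : (0 : ℝ) < n := by exact_mod_cast h4
  by_cases hp : n.Prime
  · rw [if_pos hp]
    have h6 : pc X n = 1 := if_pos ⟨hp, h5⟩
    have h7 : ‖e1 X L n‖ ≤ 1 / L * Real.log n := by
      unfold e1
      rw [h6, one_mul]
      refine (Sn_sub hL h4).trans (le_of_eq ?_)
      ring
    have h8 : 1 / L * Real.log n ≤ 1 := by
      rw [one_div, inv_mul_le_iff₀ hL, mul_one]
      exact hX n h4 h5
    have h9 := norm_nonneg (e1 X L n)
    have h10 : ‖e1 X L n‖ ^ 2 ≤ 1 / L * Real.log n := by nlinarith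
    gcongr
  · rw [if_neg hp]
    have h6 : pc X n = 0 := if_neg fun h => hp h.1
    unfold e1
    rw [h6]
    simp

/-- the mean square of the second coefficients -/
lemma N2_e2 (X : ℕ) {L : ℝ} (hL : 0 < L) : N2 (X ^ 2) (e2 X L) ≤ Z0 := by
  refine le_trans ?_ (N2_c2 X)
  unfold N2
  refine Finset.sum_le_sum fun n hn => ?_
  obtain ⟨h4, h5⟩ := Finset.mem_Icc.1 hn
  have h1 : ‖e2 X L n‖ ≤ ‖c2 X n‖ := by
    unfold e2
    rw [norm_mul]
    exact mul_le_of_le_one_right (norm_nonneg _) (Sn_le hL h4)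
  gcongr

end

end Pool.Agent.Q151.UM
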