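import Pool.Agent.Q97.UM.Stm

/-! Job CORE of project UM of helper97. -/

set_option autoImplicit false

namespace Pool.Agent.Q151.UM

open Pool.Agent.Q97.UM Finset

/-! ### products over the primes below a bound -/

lemma mem_pb {X p : ℕ} : p ∈ X.primesBelow ↔ p < X ∧ p.Prime := Nat.mem_primesBelow

lemma sm_ne {X m : ℕ} (hm : m ∈ Nat.smoothNumbers X) : m ≠ 0 := (Nat.mem_smoothNumbers.1 hm).1

lemma sm_supp {X m : ℕ} (hm : m ∈ Nat.smoothNumbers X) : m.factorization.support ⊆ X.primesBelow := by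
  intro p hp
  rw [Nat.support_factorization, Nat.mem_primeFactors] at hp
  exact mem_pb.2 ⟨Nat.mem_smoothNumbers'.1 hm p hp.1 hp.2.1, hp.1⟩

/-- the product formula -/
lemma sm_prod {X m : ℕ} (hm : m ∈ Nat.smoothNumbers X) :
    ∏ p ∈ X.primesBelow, p ^ m.factorization p = m := by
  have h := Nat.prod_factorization_pow_eq_self (sm_ne hm)
  rw [Finsupp.prod_of_support_subset _ (sm_supp hm) _ (fun i _ => pow_zero i)] at h
  exact h

lemma sm_mult {X m : ℕ} (hm : m ∈ Nat.smoothNumbers X) {f : ℕ → ℂ} (h1 : f 1 = 1)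
    (hf : ∀ m n : ℕ, 1 ≤ m → 1 ≤ n → Nat.Coprime m n → f (m * n) = f m * f n) :
    f m = ∏ p ∈ X.primesBelow, f (p ^ m.factorization p) := by
  have h2 : ∀ x y : ℕ, Nat.Coprime x y → f (x * y) = f x * f y := by
    intro x y hxy
    rcases Nat.eq_zero_or_pos x with hx | hx
    · subst hx
      have : y = 1 := by simpa using hxy
      subst this
      rw [zero_mul, h1, mul_one]
    rcases Nat.eq_zero_or_pos y with hy | hy
    · subst hy
      have : x = 1 := by simpa using hxy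
      subst this
      rw [mul_zero, h1, one_mul]
    exact hf x y hx hy hxy
  have h := Nat.multiplicative_factorization f h2 h1 (sm_ne hm)
  rw [Finsupp.prod_of_support_subset _ (sm_supp hm) _ (fun i _ => by rw [pow_zero, h1])] at h
  exact h

/-- the sum over a finite set of smooth numbers of a product of functions of the exponents -/
lemma sum_prod_le {X : ℕ} (D : Finset ℕ) (hD : ∀ m ∈ D, m ∈ Nat.smoothNumbers X)
    (φ : ℕ → ℕ → ℝ) (hφ : ∀ p ∈ X.primesBelow, ∀ j, 0 ≤ φ p j) (J : ℕ → ℕ)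
    (hJ : ∀ m ∈ D, ∀ p ∈ X.primesBelow, m.factorization p ≤ J p) :
    ∑ m ∈ D, ∏ p ∈ X.primesBelow, φ p (m.factorization p) ≤
      ∏ p ∈ X.primesBelow, ∑ j ∈ range (J p + 1), φ p j := by
  rw [Finset.prod_sum]
  let e : ℕ → ∀ p ∈ X.primesBelow, ℕ := fun m p _ => m.factorization p
  have hinj : Set.InjOn e D := by
    intro a ha b hb hab
    apply Nat.eq_of_factorization_eq (sm_ne (hD a ha)) (sm_ne (hD b hb))
    intro p
    by_cases hp : p ∈ X.primesBelow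
    · exact congrFun (congrFun hab p) hp
    · have h1 : a.factorization p = 0 := by
        by_contra hc
        exact hp (sm_supp (hD a ha) (Finsupp.mem_support_iff.2 hc))
      have h2 : b.factorization p = 0 := by
        by_contra hc
        exact hp (sm_supp (hD b hb) (Finsupp.mem_support_iff.2 hc))
      rw [h1, h2]
  have h1 : ∑ m ∈ D, ∏ p ∈ X.primesBelow, φ p (m.factorization p)
      = ∑ q ∈ D.image e, ∏ x ∈ X.primesBelow.attach, φ x.1 (q x.1 x.2) := by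
    rw [Finset.sum_image hinj]
    refine Finset.sum_congr rfl fun m _ => ?_
    exact (Finset.prod_attach X.primesBelow fun p => φ p (m.factorization p)).symm
  rw [h1]
  apply Finset.sum_le_sum_of_subset_of_nonneg
  · intro q hq
    obtain ⟨m, hm, rfl⟩ := Finset.mem_image.1 hq
    rw [Finset.mem_pi]
    intro p hp
    exact Finset.mem_range.2 (Nat.lt_succ_of_le (hJ m hm p hp))
  · intro q _ _
    exact Finset.prod_nonneg fun x _ => hφ x.1 x.2 _

/-! ### the local sums -/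

lemma cube_sum (N : ℕ) : ∑ j ∈ range N, ((j : ℝ) + 1) ^ 3 / 2 ^ j
    = 52 - (2 * (N : ℝ) ^ 3 + 12 * (N : ℝ) ^ 2 + 36 * N + 52) / 2 ^ N := by
  induction N with
  | zero => norm_num
  | succ N ih =>
    rw [Finset.sum_range_succ, ih]
    push_cast
    rw [pow_succ]
    field_simp
    ring

lemma cube_sum_le (N : ℕ) : ∑ j ∈ range N, ((j : ℝ) + 1) ^ 3 / 2 ^ j ≤ 64 := by
  rw [cube_sum]
  have : 0 ≤ (2 * (N : ℝ) ^ 3 + 12 * (N : ℝ) ^ 2 + 36 * N + 52) / 2 ^ N := by positivity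
  linarith

/-- the local weight -/
noncomputable def rr (ρ : ℝ) (j : ℕ) : ℝ := if j = 0 then 1 else (j : ℝ) ^ 2 * ρ

lemma rr_pos {ρ : ℝ} (hρ : 0 < ρ) (j : ℕ) : 0 < rr ρ j := by
  unfold rr
  split_ifs with h
  · norm_num
  · have : (0 : ℝ) < j := by exact_mod_cast Nat.pos_of_ne_zero h
    positivity

/-- the local factor of the number of divisors -/
noncomputable def gm (G : ℝ) (j : ℕ) : ℝ := if j = 0 then 1 else G

lemma gm_nonneg {G : ℝ} (hG : 0 ≤ G) (j : ℕ) : 0 ≤ gm G j := by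
  unfold gm
  split_ifs with h
  · norm_num
  · exact hG

lemma gm_sum (G : ℝ) (J : ℕ) : ∑ j ∈ range (J + 1), gm G j = 1 + J * G := by
  rw [Finset.sum_range_succ']
  simp [gm]
  ring

lemma local_sum {p : ℕ} (hp : 2 ≤ p) {ρ F : ℝ} (hρ : 0 < ρ) (hF : 0 ≤ F) (J : ℕ) :
    ∑ j ∈ range (J + 1), rr ρ j * (1 + j * (F ^ 2 / ρ)) / (p : ℝ) ^ j ≤ 1 + 64 * (ρ + F ^ 2) / p := by
  have hp0 : (0 : ℝ) < p := by exact_mod_cast (by omega : 0 < p)
  have hp2 : (2 : ℝ) ≤ p := by exact_mod_cast hp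
  rw [Finset.sum_range_succ']
  have h0 : rr ρ 0 * (1 + ((0 : ℕ) : ℝ) * (F ^ 2 / ρ)) / (p : ℝ) ^ 0 = 1 := by simp [rr]
  rw [h0]
  have h1 : ∀ j ∈ range J, rr ρ (j + 1) * (1 + ((j + 1 : ℕ) : ℝ) * (F ^ 2 / ρ)) / (p : ℝ) ^ (j + 1)
      ≤ (ρ + F ^ 2) / p * (((j : ℝ) + 1) ^ 3 / 2 ^ j) := by
    intro j _
    have h2 : rr ρ (j + 1) = ((j : ℝ) + 1) ^ 2 * ρ := by
      unfold rr
      rw [if_neg (by omega)]
      push_cast
      rfl
    rw [h2]
    push_cast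
    have h3 : ((j : ℝ) + 1) ^ 2 * ρ * (1 + ((j : ℝ) + 1) * (F ^ 2 / ρ))
        = ((j : ℝ) + 1) ^ 2 * (ρ + ((j : ℝ) + 1) * F ^ 2) := by
      field_simp
    rw [h3]
    have h4 : ((j : ℝ) + 1) ^ 2 * (ρ + ((j : ℝ) + 1) * F ^ 2) ≤ ((j : ℝ) + 1) ^ 3 * (ρ + F ^ 2) := by
      have h5 : ρ + ((j : ℝ) + 1) * F ^ 2 ≤ ((j : ℝ) + 1) * (ρ + F ^ 2) := by
        have : 0 ≤ (j : ℝ) * ρ := by positivity
        linarith
      calc _ ≤ ((j : ℝ) + 1) ^ 2 * (((j : ℝ) + 1) * (ρ + F ^ 2)) := by gcongr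
        _ = _ := by ring
    have h9 : (p : ℝ) * 2 ^ j ≤ (p : ℝ) ^ (j + 1) := by
      rw [pow_succ' (p : ℝ)]
      gcongr
    calc ((j : ℝ) + 1) ^ 2 * (ρ + ((j : ℝ) + 1) * F ^ 2) / (p : ℝ) ^ (j + 1)
        ≤ ((j : ℝ) + 1) ^ 3 * (ρ + F ^ 2) / (p : ℝ) ^ (j + 1) := by gcongr
      _ ≤ ((j : ℝ) + 1) ^ 3 * (ρ + F ^ 2) / ((p : ℝ) * 2 ^ j) := by gcongr
      _ = _ := by field_simp
  have h6 := Finset.sum_le_sum h1
  rw [← Finset.mul_sum] at h6
  have h7 : (ρ + F ^ 2) / p * ∑ j ∈ range J, ((j : ℝ) + 1) ^ 3 / 2 ^ j ≤ (ρ + F ^ 2) / p * 64 := by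
    have := cube_sum_le J
    gcongr
  have h8 : (ρ + F ^ 2) / p * 64 = 64 * (ρ + F ^ 2) / p := by ring
  linarith

section main

variable {X : ℕ} {F ρ : ℕ → ℝ}

/-- the weight -/
noncomputable def rt (X : ℕ) (ρ : ℕ → ℝ) (m : ℕ) : ℝ :=
  ∏ p ∈ X.primesBelow, rr (ρ p) (m.factorization p)

/-- the local bounds of the divisors -/
noncomputable def gt (X : ℕ) (F ρ : ℕ → ℝ) (m : ℕ) : ℝ :=
  ∏ p ∈ X.primesBelow, gm (F p ^ 2 / ρ p) (m.factorization p)

/-- the divisor sum -/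
noncomputable def gs (X : ℕ) (F ρ : ℕ → ℝ) (m : ℕ) : ℝ :=
  ∏ p ∈ X.primesBelow, (1 + (m.factorization p : ℝ) * (F p ^ 2 / ρ p))

variable (h0 : ∀ p ∈ X.primesBelow, 0 ≤ F p ∧ 0 < ρ p)
include h0

lemma rt_pos (m : ℕ) : 0 < rt X ρ m := Finset.prod_pos fun p hp => rr_pos (h0 p hp).2 _

lemma G_nonneg {p : ℕ} (hp : p ∈ X.primesBelow) : 0 ≤ F p ^ 2 / ρ p :=
  div_nonneg (sq_nonneg _) (h0 p hp).2.le

lemma gt_nonneg (m : ℕ) : 0 ≤ gt X F ρ m :=
  Finset.prod_nonneg fun _ hp => gm_nonneg (G_nonneg h0 hp) _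

lemma gs_nonneg (m : ℕ) : 0 ≤ gs X F ρ m := by
  refine Finset.prod_nonneg fun p hp => ?_
  have := G_nonneg h0 hp
  positivity

lemma gs_mul {h m : ℕ} (hh : h ≠ 0) (hm : m ≠ 0) : gs X F ρ (h * m) ≤ gs X F ρ h * gs X F ρ m := by
  unfold gs
  rw [← Finset.prod_mul_distrib]
  refine Finset.prod_le_prod (fun p hp => ?_) fun p hp => ?_
  · have := G_nonneg h0 hp
    positivity
  · have := G_nonneg h0 hp
    rw [Nat.factorization_mul hh hm, Finsupp.add_apply]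
    push_cast
    have h1 : 0 ≤ (h.factorization p : ℝ) * (F p ^ 2 / ρ p) * ((m.factorization p : ℝ) * (F p ^ 2 / ρ p)) := by
      positivity
    nlinarith

/-- the sum of the local bounds over the divisors -/
lemma gt_sum {n : ℕ} (hn : n ∈ Nat.smoothNumbers X) : ∑ d ∈ n.divisors, gt X F ρ d ≤ gs X F ρ n := by
  have h := sum_prod_le (X := X) n.divisors
    (fun d hd => Nat.mem_smoothNumbers_of_dvd hn (Nat.dvd_of_mem_divisors hd))
    (fun p j => gm (F p ^ 2 / ρ p) j) (fun p hp j => gm_nonneg (G_nonneg h0 hp) j)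
    (fun p => n.factorization p) (fun d hd p _ => by
      have h1 := Nat.dvd_of_mem_divisors hd
      have h2 : d ≠ 0 := (Nat.pos_of_mem_divisors hd).ne'
      exact (Nat.factorization_le_iff_dvd h2 (sm_ne hn)).2 h1 p)
  refine h.trans (le_of_eq ?_)
  unfold gs
  exact Finset.prod_congr rfl fun p _ => gm_sum _ _

lemma f_le {f : ℕ → ℂ} (h1 : f 1 = 1)
    (hf : ∀ m n : ℕ, 1 ≤ m → 1 ≤ n → Nat.Coprime m n → f (m * n) = f m * f n)
    (hb : ∀ p ∈ X.primesBelow, ∀ j : ℕ, 1 ≤ j → ‖f (p ^ j)‖ ≤ j * F p) {m : ℕ}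
    (hm : m ∈ Nat.smoothNumbers X) : ‖f m‖ ^ 2 ≤ rt X ρ m * gt X F ρ m := by
  rw [sm_mult hm h1 hf, norm_prod, ← Finset.prod_pow]
  unfold rt gt
  rw [← Finset.prod_mul_distrib]
  refine Finset.prod_le_prod (fun p hp => by positivity) fun p hp => ?_
  have h2 := h0 p hp
  rcases Nat.eq_zero_or_pos (m.factorization p) with h3 | h3
  · rw [h3, pow_zero, h1]
    simp [rr, gm]
  · unfold rr gm
    rw [if_neg (by omega), if_neg (by omega)]
    have h4 := hb p hp _ h3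
    calc ‖f (p ^ m.factorization p)‖ ^ 2 ≤ ((m.factorization p : ℝ) * F p) ^ 2 := by gcongr
      _ = _ := by
        have := h2.2.ne'
        field_simp

/-- the Euler product -/
lemma psi_sum (D : Finset ℕ) (hD : ∀ m ∈ D, m ∈ Nat.smoothNumbers X) :
    ∑ m ∈ D, rt X ρ m * gs X F ρ m / m ≤
      ∏ p ∈ X.primesBelow, (1 + 64 * (ρ p + F p ^ 2) / p) := by
  have h1 : ∀ m ∈ D, rt X ρ m * gs X F ρ m / m = ∏ p ∈ X.primesBelow,
      rr (ρ p) (m.factorization p) * (1 + (m.factorization p : ℝ) * (F p ^ 2 / ρ p))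
        / (p : ℝ) ^ m.factorization p := by
    intro m hm
    have h2 : (m : ℝ) = ∏ p ∈ X.primesBelow, (p : ℝ) ^ m.factorization p := by
      conv_lhs => rw [← sm_prod (hD m hm)]
      push_cast
      rfl
    conv_lhs => rw [h2]
    unfold rt gs
    rw [← Finset.prod_mul_distrib, ← Finset.prod_div_distrib]
  rw [Finset.sum_congr rfl h1]
  have h := sum_prod_le (X := X) D hD
    (fun p j => rr (ρ p) j * (1 + (j : ℝ) * (F p ^ 2 / ρ p)) / (p : ℝ) ^ j)
    (fun p hp j => by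
      have := rr_pos (h0 p hp).2 j
      have := G_nonneg h0 hp
      positivity)
    (fun p => D.sup fun m => m.factorization p)
    (fun m hm p _ => Finset.le_sup (f := fun m : ℕ => m.factorization p) hm)
  refine h.trans (Finset.prod_le_prod (fun p hp => Finset.sum_nonneg fun j _ => ?_) fun p hp => ?_)
  · have := rr_pos (h0 p hp).2 j
    have := G_nonneg h0 hp
    positivity
  · exact local_sum (mem_pb.1 hp).2.two_le (h0 p hp).2 (h0 p hp).1 _

/-- the Cauchy-Schwarz inequality for one number -/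
lemma cv_le {f b : ℕ → ℂ} (h1 : f 1 = 1)
    (hf : ∀ m n : ℕ, 1 ≤ m → 1 ≤ n → Nat.Coprime m n → f (m * n) = f m * f n)
    (hb : ∀ p ∈ X.primesBelow, ∀ j : ℕ, 1 ≤ j → ‖f (p ^ j)‖ ≤ j * F p) {n : ℕ}
    (hn : n ∈ Nat.smoothNumbers X) :
    ‖cv b f n‖ ^ 2 ≤ (∑ q ∈ n.divisorsAntidiagonal, ‖b q.1‖ ^ 2 * rt X ρ q.2) * gs X F ρ n := by
  have hq : ∀ q ∈ n.divisorsAntidiagonal, q.2 ∈ Nat.smoothNumbers X := by
    intro q hq
    have h2 := (Nat.mem_divisorsAntidiagonal.1 hq).1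
    exact Nat.mem_smoothNumbers_of_dvd hn ⟨q.1, by rw [← h2, mul_comm]⟩
  have h2 : ‖cv b f n‖ ≤ ∑ q ∈ n.divisorsAntidiagonal, ‖b q.1‖ * ‖f q.2‖ := by
    unfold cv
    refine (norm_sum_le _ _).trans (le_of_eq ?_)
    exact Finset.sum_congr rfl fun q _ => norm_mul _ _
  have h3 : (∑ q ∈ n.divisorsAntidiagonal, ‖b q.1‖ * ‖f q.2‖) ^ 2 ≤
      (∑ q ∈ n.divisorsAntidiagonal, ‖b q.1‖ ^ 2 * rt X ρ q.2) *
        ∑ q ∈ n.divisorsAntidiagonal, gt X F ρ q.2 := by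
    apply Finset.sum_sq_le_sum_mul_sum_of_sq_le_mul
    · intro q _
      have := rt_pos h0 q.2
      positivity
    · intro q _
      exact gt_nonneg h0 _
    · intro q hq'
      have h4 := f_le h0 h1 hf hb (hq q hq')
      calc (‖b q.1‖ * ‖f q.2‖) ^ 2 = ‖b q.1‖ ^ 2 * ‖f q.2‖ ^ 2 := by ring
        _ ≤ ‖b q.1‖ ^ 2 * (rt X ρ q.2 * gt X F ρ q.2) := by gcongr
        _ = _ := by ring
  have h4 : ∑ q ∈ n.divisorsAntidiagonal, gt X F ρ q.2 = ∑ d ∈ n.divisors, gt X F ρ d :=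
    Nat.sum_divisorsAntidiagonal' (fun _ d => gt X F ρ d)
  have h5 : 0 ≤ ∑ q ∈ n.divisorsAntidiagonal, ‖b q.1‖ ^ 2 * rt X ρ q.2 :=
    Finset.sum_nonneg fun q _ => by
      have := rt_pos h0 q.2
      positivity
  calc ‖cv b f n‖ ^ 2 ≤ (∑ q ∈ n.divisorsAntidiagonal, ‖b q.1‖ * ‖f q.2‖) ^ 2 := by gcongr
    _ ≤ _ := h3
    _ ≤ _ := by
      rw [h4]
      exact mul_le_mul_of_nonneg_left (gt_sum h0 hn) h5

end main

theorem core : S_CORE := by
  intro X N f b F ρ g0 hNX h1 hf h0 hb hg0 hbN S hS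
  have hpr : 0 ≤ ∏ p ∈ X.primesBelow, (1 - 1 / (p : ℝ)) := by
    refine Finset.prod_nonneg fun p hp => ?_
    have h2 : (2 : ℝ) ≤ p := by exact_mod_cast (mem_pb.1 hp).2.two_le
    have : 1 / (p : ℝ) ≤ 1 := by
      rw [div_le_one (by linarith)]
      linarith
    linarith
  have hsm : ∀ n ∈ S, ∀ q ∈ n.divisorsAntidiagonal, q.1 ≠ 0 ∧ q.2 ≠ 0 ∧ q.1 * q.2 = n ∧
      q.2 ∈ Nat.smoothNumbers X := by
    intro n hn q hq
    have h2 := Nat.mem_divisorsAntidiagonal.1 hq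
    have h3 : q.1 * q.2 ≠ 0 := by rw [h2.1]; exact h2.2
    exact ⟨left_ne_zero_of_mul h3, right_ne_zero_of_mul h3, h2.1,
      Nat.mem_smoothNumbers_of_dvd (hS n hn) ⟨q.1, by rw [← h2.1, mul_comm]⟩⟩
  -- the weight of a pair
  obtain ⟨W, hW⟩ : ∃ W : ℕ × ℕ → ℝ, W = fun q => ‖b q.1‖ ^ 2 / q.1 *
    (g0 * (rt X ρ q.2 * gs X F ρ q.2 / q.2)) := ⟨_, rfl⟩
  have hstep : ∀ n ∈ S, ‖cv b f n‖ ^ 2 / n ≤ ∑ q ∈ n.divisorsAntidiagonal, W q := by
    intro n hn
    have hn0 : (0 : ℝ) < n := by exact_mod_cast Nat.pos_of_ne_zero (sm_ne (hS n hn))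
    have h2 := cv_le h0 h1 hf hb (b := b) (hS n hn)
    calc ‖cv b f n‖ ^ 2 / n
        ≤ ((∑ q ∈ n.divisorsAntidiagonal, ‖b q.1‖ ^ 2 * rt X ρ q.2) * gs X F ρ n) / n := by gcongr
      _ = ∑ q ∈ n.divisorsAntidiagonal, ‖b q.1‖ ^ 2 * rt X ρ q.2 * gs X F ρ n / n := by
        rw [Finset.sum_mul, Finset.sum_div]
      _ ≤ _ := by
        refine Finset.sum_le_sum fun q hq => ?_
        obtain ⟨e1, e2, e3, e4⟩ := hsm n hn q hq
        rw [hW]
        by_cases hb0 : b q.1 = 0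
        · simp [hb0]
        · have h3 := hbN _ hb0
          have h4 := hg0 q.1 (Finset.mem_Icc.2 h3)
          have h5 : gs X F ρ n ≤ g0 * gs X F ρ q.2 := by
            rw [← e3]
            refine (gs_mul h0 e1 e2).trans ?_
            exact mul_le_mul_of_nonneg_right h4 (gs_nonneg h0 _)
          have h6 : (n : ℝ) = q.1 * q.2 := by rw [← e3]; push_cast; rfl
          have h7 : (0 : ℝ) < q.1 := by exact_mod_cast Nat.pos_of_ne_zero e1
          have h8 : (0 : ℝ) < q.2 := by exact_mod_cast Nat.pos_of_ne_zero e2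
          have h9 := rt_pos h0 q.2
          calc ‖b q.1‖ ^ 2 * rt X ρ q.2 * gs X F ρ n / n
              ≤ ‖b q.1‖ ^ 2 * rt X ρ q.2 * (g0 * gs X F ρ q.2) / n := by gcongr
            _ = _ := by
              rw [h6]
              field_simp
  have hdisj : (S : Set ℕ).PairwiseDisjoint fun n => n.divisorsAntidiagonal := by
    intro n _ m _ hnm
    rw [Function.onFun, Finset.disjoint_left]
    intro q hq hq'
    exact hnm ((Nat.mem_divisorsAntidiagonal.1 hq).1.symm.trans (Nat.mem_divisorsAntidiagonal.1 hq').1)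
  have hsum : ∑ n ∈ S, ‖cv b f n‖ ^ 2 / n ≤ ∑ q ∈ S.biUnion fun n => n.divisorsAntidiagonal, W q := by
    rw [Finset.sum_biUnion hdisj]
    exact Finset.sum_le_sum hstep
  obtain ⟨D, hD⟩ : ∃ D : Finset ℕ, D = (S.biUnion fun n => n.divisorsAntidiagonal).image Prod.snd :=
    ⟨_, rfl⟩
  have hDs : ∀ m ∈ D, m ∈ Nat.smoothNumbers X := by
    intro m hm
    rw [hD] at hm
    obtain ⟨q, hq, rfl⟩ := Finset.mem_image.1 hm
    obtain ⟨n, hn, hq'⟩ := Finset.mem_biUnion.1 hq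
    exact (hsm n hn q hq').2.2.2
  rcases Nat.eq_zero_or_pos N with hN0 | hN0
  · have hb0 : ∀ n, b n = 0 := by
      intro n
      by_contra hc
      have := hbN n hc
      omega
    have h2 : ∀ n, cv b f n = 0 := by
      intro n
      unfold cv
      simp [hb0]
    simp only [h2, N2, hN0]
    simp
  have hg0' : 0 ≤ g0 := (gs_nonneg h0 1).trans (hg0 1 (Finset.mem_Icc.2 ⟨le_rfl, hN0⟩))
  have hψ0 : ∀ m, 0 ≤ rt X ρ m * gs X F ρ m / m := by
    intro m
    have := (rt_pos h0 m).le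
    have := gs_nonneg h0 m
    positivity
  have hW0 : ∀ q, 0 ≤ W q := by
    intro q
    rw [hW]
    have := hψ0 q.2
    have : 0 ≤ ‖b q.1‖ ^ 2 / q.1 := by positivity
    positivity
  have hsum2 : ∑ q ∈ S.biUnion (fun n => n.divisorsAntidiagonal), W q ≤
      ∑ q ∈ Finset.Icc 1 N ×ˢ D, W q := by
    have h2 : ∑ q ∈ S.biUnion (fun n => n.divisorsAntidiagonal), W q =
        ∑ q ∈ (S.biUnion fun n => n.divisorsAntidiagonal).filter fun q => b q.1 ≠ 0, W q := by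
      rw [Finset.sum_filter]
      refine Finset.sum_congr rfl fun q _ => ?_
      split_ifs with h
      · rfl
      · have : b q.1 = 0 := by simpa using h
        rw [hW]
        simp [this]
    rw [h2]
    refine Finset.sum_le_sum_of_subset_of_nonneg ?_ fun q _ _ => hW0 q
    intro q hq
    rw [Finset.mem_filter] at hq
    rw [Finset.mem_product]
    exact ⟨Finset.mem_Icc.2 (hbN _ hq.2), by rw [hD]; exact Finset.mem_image_of_mem _ hq.1⟩
  have hsum3 : ∑ q ∈ Finset.Icc 1 N ×ˢ D, W q =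
      N2 N b * (g0 * ∑ m ∈ D, rt X ρ m * gs X F ρ m / m) := by
    rw [Finset.sum_product, hW]
    simp only
    unfold N2
    rw [Finset.sum_mul]
    refine Finset.sum_congr rfl fun h _ => ?_
    rw [← Finset.mul_sum, ← Finset.mul_sum]
  have hN2 : 0 ≤ N2 N b := by
    unfold N2
    positivity
  have hψ := psi_sum h0 D hDs
  calc (∏ p ∈ X.primesBelow, (1 - 1 / (p : ℝ))) * ∑ n ∈ S, ‖cv b f n‖ ^ 2 / n
      ≤ (∏ p ∈ X.primesBelow, (1 - 1 / (p : ℝ))) *
        (N2 N b * (g0 * ∏ p ∈ X.primesBelow, (1 + 64 * (ρ p + F p ^ 2) / p))) := by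
        refine mul_le_mul_of_nonneg_left ?_ hpr
        refine (hsum.trans hsum2).trans ?_
        rw [hsum3]
        gcongr
    _ = _ := by
        rw [Finset.prod_mul_distrib]
        ring

end Pool.Agent.Q151.UM
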