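import Pool.Agent.Q62.UM.Stm2

/-!
# Project UM: lemma PH (helper151)
-/

set_option autoImplicit false

open Real Set MeasureTheory Topology Filter
open scoped ENNReal Polynomial

namespace Pool.Agent.Q62.UM

noncomputable section

namespace PHx

variable {J : Set ℝ}

lemma hd {f : ℝ → ℝ} (h : ContDiffOn ℝ 3 f J) (hJ : IsOpen J) {u : ℝ} (hu : u ∈ J) :
    HasDerivAt f (deriv f u) u :=
  ((h.contDiffAt (hJ.mem_nhds hu)).differentiableAt (by norm_num)).hasDerivAt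

lemma hd2 {f : ℝ → ℝ} (h : ContDiffOn ℝ 3 f J) (hJ : IsOpen J) {u : ℝ} (hu : u ∈ J) :
    HasDerivAt (deriv f) (deriv (deriv f) u) u :=
  (((h.deriv_of_isOpen hJ (m := 2) (by norm_num)).contDiffAt
    (hJ.mem_nhds hu)).differentiableAt (by norm_num)).hasDerivAt

lemma hdc {f : ℝ → ℂ} (h : ContDiffOn ℝ 3 f J) (hJ : IsOpen J) {u : ℝ} (hu : u ∈ J) :
    HasDerivAt f (deriv f u) u :=
  ((h.contDiffAt (hJ.mem_nhds hu)).differentiableAt (by norm_num)).hasDerivAt

/-- h1, h2 -/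
lemma ang {y : ℝ → ℝ} (h : ContDiffOn ℝ 3 y J) (hJ : IsOpen J) {u κ : ℝ} (hu : u ∈ J)
    (h1 : |deriv (fun u => cos (y u)) u| ≤ κ) (h2 : |deriv (fun u => sin (y u)) u| ≤ κ)
    (h3 : |deriv (deriv fun u => cos (y u)) u| ≤ κ)
    (h4 : |deriv (deriv fun u => sin (y u)) u| ≤ κ) :
    |deriv y u| ≤ 2 * κ ∧ |deriv (deriv y) u| ≤ 2 * κ := by
  have c1 : ∀ x ∈ J, deriv (fun u => cos (y u)) x = -sin (y x) * deriv y x := fun x hx =>
    (hd h hJ hx).cos.deriv
  have c2 : ∀ x ∈ J, deriv (fun u => sin (y u)) x = cos (y x) * deriv y x := fun x hx =>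
    (hd h hJ hx).sin.deriv
  have d1 : deriv (deriv fun u => cos (y u)) u =
      -(cos (y u) * deriv y u) * deriv y u + -sin (y u) * deriv (deriv y) u := by
    have e1 : (deriv fun u => cos (y u)) =ᶠ[𝓝 u] fun x => -sin (y x) * deriv y x :=
      eventually_of_mem (hJ.mem_nhds hu) c1
    rw [e1.deriv_eq]
    exact ((hd h hJ hu).sin.neg.mul (hd2 h hJ hu)).deriv
  have d2 : deriv (deriv fun u => sin (y u)) u =
      -sin (y u) * deriv y u * deriv y u + cos (y u) * deriv (deriv y) u := by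
    have e1 : (deriv fun u => sin (y u)) =ᶠ[𝓝 u] fun x => cos (y x) * deriv y x :=
      eventually_of_mem (hJ.mem_nhds hu) c2
    rw [e1.deriv_eq]
    exact ((hd h hJ hu).cos.mul (hd2 h hJ hu)).deriv
  rw [c1 u hu] at h1
  rw [c2 u hu] at h2
  rw [d1] at h3
  rw [d2] at h4
  have s1 := abs_sin_le_one (y u)
  have s2 := abs_cos_le_one (y u)
  have s3 := sin_sq_add_cos_sq (y u)
  set s := sin (y u)
  set c := cos (y u)
  set v := deriv y u
  set w := deriv (deriv y) u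
  have key : ∀ A B : ℝ, |A| ≤ κ → |B| ≤ κ → |c * B - s * A| ≤ 2 * κ := by
    intro A B hA hB
    calc |c * B - s * A| ≤ |c * B| + |s * A| := abs_sub _ _
      _ = |c| * |B| + |s| * |A| := by rw [abs_mul, abs_mul]
      _ ≤ 1 * κ + 1 * κ := add_le_add (mul_le_mul s2 hB (abs_nonneg _) (by norm_num))
          (mul_le_mul s1 hA (abs_nonneg _) (by norm_num))
      _ = 2 * κ := by ring
  constructor
  · have e : v = c * (c * v) - s * (-s * v) := by linear_combination (-v) * s3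
    rw [e]
    exact key _ _ h1 h2
  · have e : w = c * (-s * v * v + c * w) - s * (-(c * v) * v + -s * w) := by
      linear_combination (-w) * s3
    rw [e]
    exact key _ _ h3 h4

/-- h3, h4 -/
lemma rad {η : ℝ → ℝ} (h : ContDiffOn ℝ 3 η J) (hJ : IsOpen J) {u κ : ℝ} (hu : u ∈ J)
    (h0 : ∀ x ∈ J, 0 < η x) (h1 : |deriv (fun u => √(√(η u))) u| ≤ κ)
    (h2 : |deriv (deriv fun u => √(η u)) u| ≤ κ) (hκ1 : 10 * κ ≤ 1) :
    |deriv η u / η u| * √(√(η u)) ≤ 4 * κ ∧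
      |deriv (fun u => deriv η u / η u) u| * √(η u) ≤ 10 * κ := by
  have hκ0 : 0 ≤ κ := (abs_nonneg _).trans h1
  have e0 := h0 u hu
  have s0 : 0 < √(η u) := sqrt_pos.2 e0
  have t0 : 0 < √(√(η u)) := sqrt_pos.2 s0
  have ss : √(η u) * √(η u) = η u := mul_self_sqrt e0.le
  have tt : √(√(η u)) * √(√(η u)) = √(η u) := mul_self_sqrt s0.le
  have c1 : ∀ x ∈ J, deriv (fun u => √(η u)) x = deriv η x / η x * √(η x) / 2 := by
    intro x hx
    have e0 := h0 x hx
    have s0 : 0 < √(η x) := sqrt_pos.2 e0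
    have ss : √(η x) * √(η x) = η x := mul_self_sqrt e0.le
    rw [((hd h hJ hx).sqrt e0.ne').deriv]
    field_simp
    rw [sq, ss]
  have c2 : deriv (fun u => √(√(η u))) u = deriv η u / η u * √(√(η u)) / 4 := by
    rw [(((hd h hJ hu).sqrt e0.ne').sqrt s0.ne').deriv]
    have e1 : deriv η u / η u = deriv η u / (√(η u) * √(η u)) := by rw [ss]
    rw [e1]
    nth_rewrite 4 [← tt]
    field_simp
    norm_num
  have c3 : deriv (deriv fun u => √(η u)) u =
      (deriv (fun u => deriv η u / η u) u * √(η u) +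
        deriv η u / η u * (deriv η u / η u * √(η u) / 2)) / 2 := by
    have e1 : (deriv fun u => √(η u)) =ᶠ[𝓝 u] fun x => deriv η x / η x * √(η x) / 2 :=
      eventually_of_mem (hJ.mem_nhds hu) c1
    rw [e1.deriv_eq]
    have d1 : HasDerivAt (fun u => deriv η u / η u) (deriv (fun u => deriv η u / η u) u) u :=
      (((hd2 h hJ hu).div (hd h hJ hu) e0.ne').differentiableAt).hasDerivAt
    have d2 : HasDerivAt (fun u => √(η u)) (deriv η u / η u * √(η u) / 2) u := by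
      have := (((hd h hJ hu).sqrt e0.ne').differentiableAt).hasDerivAt
      rwa [c1 u hu] at this
    exact ((d1.mul d2).div_const 2).deriv
  rw [c2] at h1
  rw [c3] at h2
  set m := deriv η u / η u
  set l := deriv (fun u => deriv η u / η u) u
  set t := √(√(η u))
  have g1 : |m| * t ≤ 4 * κ := by
    rw [abs_div, abs_mul, abs_of_pos t0, abs_of_pos (by norm_num : (0 : ℝ) < 4)] at h1
    linarith
  refine ⟨g1, ?_⟩
  have g2 : m * m * √(η u) = (|m| * t) ^ 2 := by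
    rw [mul_pow, sq_abs, ← tt]; ring
  have g3 : (|m| * t) ^ 2 ≤ (4 * κ) ^ 2 := pow_le_pow_left₀ (by positivity) g1 2
  have g4 : |l * √(η u)| ≤ 2 * κ + 8 * κ ^ 2 := by
    obtain ⟨a1, a2⟩ := abs_le.1 h2
    have a3 : 0 ≤ m * m * √(η u) := by rw [g2]; positivity
    rw [abs_le]
    constructor <;> nlinarith
  rw [abs_mul, abs_of_pos s0] at g4
  nlinarith

lemma Hf_sin (x : ℝ) : sin x ^ 2 = Hf x * (1 - Hf x / 4) := by
  unfold Hf
  have := sin_sq_add_cos_sq x
  nlinarith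

lemma Hf_neg (x : ℝ) : Hf (-x) = Hf x := by
  unfold Hf; rw [cos_neg]

lemma Hf_nonneg (x : ℝ) : 0 ≤ Hf x := by
  unfold Hf; linarith [cos_le_one x]

lemma Hf_pos {x : ℝ} (h : cos x ≠ 1) : 0 < Hf x := by
  have := cos_le_one x
  have := lt_of_le_of_ne this h
  unfold Hf; linarith

lemma Hf_der {Δ : ℝ → ℝ} {w u : ℝ} (h : HasDerivAt Δ w u) :
    HasDerivAt (fun x => Hf (Δ x)) (2 * (sin (Δ u) * w)) u := by
  unfold Hf
  refine ((h.cos.const_mul 2).const_sub 2).congr_deriv ?_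
  ring

/-- h5 -/
lemma dif {Δ : ℝ → ℝ} {w u κ : ℝ} (h : HasDerivAt Δ w u) (hne : cos (Δ u) ≠ 1)
    (hw : |w| ≤ 4 * κ) (h1 : |deriv (fun x => √(√(Hf (Δ x)))) u| ≤ κ) :
    |w| ≤ 10 * κ * √(√(Hf (Δ u))) := by
  have hκ0 : 0 ≤ κ := (abs_nonneg _).trans h1
  have H0 := Hf_pos hne
  have s0 : 0 < √(Hf (Δ u)) := sqrt_pos.2 H0
  have t0 : 0 < √(√(Hf (Δ u))) := sqrt_pos.2 s0
  have ss : √(Hf (Δ u)) * √(Hf (Δ u)) = Hf (Δ u) := mul_self_sqrt H0.le
  have tt : √(√(Hf (Δ u))) * √(√(Hf (Δ u))) = √(Hf (Δ u)) := mul_self_sqrt s0.le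
  rw [(((Hf_der h).sqrt H0.ne').sqrt s0.ne').deriv] at h1
  have hsin := Hf_sin (Δ u)
  set S := sin (Δ u)
  set H := Hf (Δ u)
  set t := √(√H)
  rcases le_or_gt 1 H with hH | hH
  · have h2 : 1 ≤ √H := Real.one_le_sqrt.2 hH
    have h3 : 1 ≤ t := Real.one_le_sqrt.2 h2
    nlinarith
  · -- `|S| |w| ≤ 2 κ t³`
    have h2 : |S| * |w| ≤ 2 * κ * (t * √H) := by
      have e1 : 2 * (S * w) / (2 * √H) / (2 * t) = S * w / (2 * (t * √H)) := by
        field_simp
      rw [e1, abs_div, abs_mul, abs_of_pos (by positivity : 0 < 2 * (t * √H)),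
        div_le_iff₀ (by positivity)] at h1
      linarith
    have h3 : √H * (3 / 4) ≤ |S| := by
      apply abs_le_of_sq_le_sq' _ (abs_nonneg _) |>.2
      rw [sq_abs, hsin, mul_pow, sq √H, ss]
      nlinarith
    have h4 : √H * (3 / 4) * |w| ≤ 2 * κ * (t * √H) :=
      (mul_le_mul_of_nonneg_right h3 (abs_nonneg _)).trans h2
    have h5 : √H * (3 / 4 * |w|) ≤ √H * (2 * κ * t) := by linarith
    have h6 := le_of_mul_le_mul_left h5 s0
    have : 0 ≤ κ * t := by positivity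
    linarith

/-- h6 -/
lemma mix {Δ η : ℝ → ℝ} {w u κ : ℝ} (h : HasDerivAt Δ w u) (hη : HasDerivAt η (deriv η u) u)
    (hne : cos (Δ u) ≠ 1) (hw : |w| ≤ 4 * κ) (h0 : 0 < η u) (h1 : η u ≤ 1)
    (h2 : |deriv (fun x => η x / (η x + √(Hf (Δ x)))) u| ≤ κ) :
    η u * |w - deriv η u / η u * sin (Δ u)| ≤ 10 * κ * (η u ^ 2 + Hf (Δ u)) := by
  have hκ0 : 0 ≤ κ := (abs_nonneg _).trans h2
  have H0 := Hf_pos hne
  have s0 : 0 < √(Hf (Δ u)) := sqrt_pos.2 H0
  have ss : √(Hf (Δ u)) * √(Hf (Δ u)) = Hf (Δ u) := mul_self_sqrt H0.le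
  have hp : 0 < η u + √(Hf (Δ u)) := by positivity
  have hdv : deriv (fun x => η x / (η x + √(Hf (Δ x)))) u =
      (deriv η u * (η u + √(Hf (Δ u))) - η u * (deriv η u +
        2 * (sin (Δ u) * w) / (2 * √(Hf (Δ u))))) / (η u + √(Hf (Δ u))) ^ 2 :=
    (hη.div (hη.add ((Hf_der h).sqrt H0.ne')) hp.ne').deriv
  rw [hdv] at h2
  have hsin := Hf_sin (Δ u)
  set S := sin (Δ u)
  set H := Hf (Δ u)
  set Y := √H
  obtain ⟨m, hm⟩ : ∃ m, m = deriv η u / η u := ⟨_, rfl⟩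
  have hm' : deriv η u = η u * m := by rw [hm]; field_simp
  rw [← hm]
  rw [hm'] at h2
  set e := η u
  have e1 : (e * m * (e + Y) - e * (e * m + 2 * (S * w) / (2 * Y))) / (e + Y) ^ 2 =
      e * (m * Y - S * w / Y) / (e + Y) ^ 2 := by
    field_simp
    ring
  have h3 : |e * (m * Y - S * w / Y)| ≤ κ * (e + Y) ^ 2 := by
    have h2' : |(e * m * (e + Y) - e * (e * m + 2 * (S * w) / (2 * Y))) / (e + Y) ^ 2| ≤ κ := h2
    rw [e1, abs_div, abs_of_pos (by positivity : 0 < (e + Y) ^ 2), div_le_iff₀ (by positivity)]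
      at h2'
    exact h2'
  have hSY : |S / Y| ≤ 1 := by
    rw [abs_div, abs_of_pos s0, div_le_one s0]
    apply abs_le_of_sq_le_sq' _ s0.le |>.2
    rw [sq_abs, hsin, sq Y, ss]
    nlinarith
  have h4 : |e * (m * Y - S * w / Y) * (S / Y)| ≤ κ * (e + Y) ^ 2 := by
    rw [abs_mul]
    calc |e * (m * Y - S * w / Y)| * |S / Y| ≤ |e * (m * Y - S * w / Y)| * 1 :=
          mul_le_mul_of_nonneg_left hSY (abs_nonneg _)
      _ ≤ κ * (e + Y) ^ 2 := by rw [mul_one]; exact h3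
  have e2 : e * (m * Y - S * w / Y) * (S / Y) = -(e * (w - m * S)) + e * w * H / 4 := by
    have a1 : e * (m * Y - S * w / Y) * (S / Y) = e * (m * S - S ^ 2 * w / (Y * Y)) := by
      field_simp
    rw [a1, ss, hsin]
    field_simp
    ring
  rw [e2] at h4
  have h5 : |e * w * H / 4| ≤ κ * H := by
    rw [abs_div, abs_mul, abs_mul, abs_of_pos h0, abs_of_pos H0,
      abs_of_pos (by norm_num : (0 : ℝ) < 4), div_le_iff₀ (by norm_num)]
    have a1 : e * |w| ≤ 1 * (4 * κ) := mul_le_mul h1 hw (abs_nonneg _) (by norm_num)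
    calc e * |w| * H ≤ 1 * (4 * κ) * H := mul_le_mul_of_nonneg_right a1 H0.le
      _ = κ * H * 4 := by ring
  have h6 : |e * (w - m * S)| ≤ κ * (e + Y) ^ 2 + κ * H := by
    have a1 : e * (w - m * S) = -(-(e * (w - m * S)) + e * w * H / 4) + e * w * H / 4 := by ring
    rw [a1]
    refine (abs_add_le _ _).trans (add_le_add ?_ h5)
    rw [abs_neg]; exact h4
  rw [abs_mul, abs_of_pos h0] at h6
  have h7 : (e + Y) ^ 2 ≤ 2 * (e ^ 2 + H) := by
    rw [← ss]; nlinarith [sq_nonneg (e - Y)]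
  have h8 : κ * (e + Y) ^ 2 ≤ κ * (2 * (e ^ 2 + H)) := mul_le_mul_of_nonneg_left h7 hκ0
  have h9 : 0 ≤ κ * e ^ 2 := by positivity
  have h10 : 0 ≤ κ * H := by positivity
  linarith

/-- h7 -/
lemma quo {a b : ℝ → ℝ} {u κ : ℝ} (ha : HasDerivAt a (deriv a u) u)
    (hb : HasDerivAt b (deriv b u) u) (a0 : 0 < a u) (b0 : 0 < b u)
    (h : |deriv (fun x => √(a x / b x)) u| ≤ κ) :
    |deriv a u / a u - deriv b u / b u| * √(a u) ≤ 10 * κ * √(b u) := by
  have hκ0 : 0 ≤ κ := (abs_nonneg _).trans h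
  have q0 : 0 < a u / b u := by positivity
  have sq0 : 0 < √(a u / b u) := sqrt_pos.2 q0
  have ss : √(a u / b u) * √(a u / b u) = a u / b u := mul_self_sqrt q0.le
  have hdd := ((ha.div hb b0.ne').sqrt q0.ne').deriv
  have h' : |(deriv a u * b u - a u * deriv b u) / b u ^ 2 / (2 * √(a u / b u))| ≤ κ := by
    have e : (fun x => √(a x / b x)) = fun x => √((a / b) x) := rfl
    rw [e] at h
    rwa [hdd] at h
  have e1 : (deriv a u * b u - a u * deriv b u) / b u ^ 2 / (2 * √(a u / b u)) =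
      (deriv a u / a u - deriv b u / b u) * √(a u / b u) / 2 := by
    have a1 : (deriv a u * b u - a u * deriv b u) / b u ^ 2 =
        (deriv a u / a u - deriv b u / b u) * (√(a u / b u) * √(a u / b u)) := by
      rw [ss]; field_simp
    rw [a1]; field_simp
  rw [e1, abs_div, abs_mul, abs_of_pos sq0, abs_of_pos (by norm_num : (0 : ℝ) < 2),
    div_le_iff₀ (by norm_num)] at h'
  have sb : 0 < √(b u) := sqrt_pos.2 b0
  have e2 : √(a u / b u) * √(b u) = √(a u) := by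
    rw [← sqrt_mul q0.le]; congr 1; field_simp
  have h2 := mul_le_mul_of_nonneg_right h' sb.le
  rw [mul_assoc, e2] at h2
  have : 0 ≤ κ * √(b u) := by positivity
  linarith

/-- the phase -/
lemma pha {c : ℝ → ℂ} {u κ : ℝ} (hc : HasDerivAt c (deriv c u) u) (c0 : c u ≠ 0)
    (h1 : |deriv (fun u => (c u / ‖c u‖).re) u| ≤ κ)
    (h2 : |deriv (fun u => (c u / ‖c u‖).im) u| ≤ κ) : |(deriv c u / c u).im| ≤ 2 * κ := by
  have hr0 : 0 < ‖c u‖ := norm_pos_iff.2 c0
  have hre : HasDerivAt (fun x => (c x).re) (deriv c u).re u := by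
    have := (Complex.reCLM.hasFDerivAt (x := c u)).comp_hasDerivAt u hc
    exact this
  have him : HasDerivAt (fun x => (c x).im) (deriv c u).im u := by
    have := (Complex.imCLM.hasFDerivAt (x := c u)).comp_hasDerivAt u hc
    exact this
  have hn : DifferentiableAt ℝ (fun x => ‖c x‖) u := hc.differentiableAt.norm ℝ c0
  obtain ⟨r', hr'⟩ : ∃ r', r' = deriv (fun x => ‖c x‖) u := ⟨_, rfl⟩
  have hn' : HasDerivAt (fun x => ‖c x‖) r' u := by rw [hr']; exact hn.hasDerivAt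
  have e1 : (fun u => (c u / ‖c u‖).re) = fun u => (c u).re / ‖c u‖ := by
    funext x; rw [Complex.div_ofReal_re]
  have e2 : (fun u => (c u / ‖c u‖).im) = fun u => (c u).im / ‖c u‖ := by
    funext x; rw [Complex.div_ofReal_im]
  rw [e1] at h1
  rw [e2] at h2
  have d1 := (hre.div hn' hr0.ne').deriv
  have d2 := (him.div hn' hr0.ne').deriv
  have h1' : |((deriv c u).re * ‖c u‖ - (c u).re * r') / ‖c u‖ ^ 2| ≤ κ := by
    rw [← d1]; exact h1
  have h2' : |((deriv c u).im * ‖c u‖ - (c u).im * r') / ‖c u‖ ^ 2| ≤ κ := by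
    rw [← d2]; exact h2
  have hsq : (c u).re * (c u).re + (c u).im * (c u).im = ‖c u‖ ^ 2 := by
    rw [Complex.sq_norm, Complex.normSq_apply]
  have hA : |(c u).re / ‖c u‖| ≤ 1 := by
    rw [abs_div, abs_of_pos hr0, div_le_one hr0]; exact Complex.abs_re_le_norm _
  have hB : |(c u).im / ‖c u‖| ≤ 1 := by
    rw [abs_div, abs_of_pos hr0, div_le_one hr0]; exact Complex.abs_im_le_norm _
  have e3 : (deriv c u / c u).im =
      ((deriv c u).im * ‖c u‖ - (c u).im * r') / ‖c u‖ ^ 2 * ((c u).re / ‖c u‖) -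
      ((deriv c u).re * ‖c u‖ - (c u).re * r') / ‖c u‖ ^ 2 * ((c u).im / ‖c u‖) := by
    rw [Complex.div_im, Complex.normSq_apply, hsq]
    field_simp
    ring
  rw [e3]
  refine (abs_sub _ _).trans ?_
  rw [abs_mul, abs_mul]
  have hκ0 : 0 ≤ κ := (abs_nonneg _).trans h1'
  have := mul_le_mul h2' hA (abs_nonneg _) hκ0
  have := mul_le_mul h1' hB (abs_nonneg _) hκ0
  linarith

end PHx

open PHx in
/-- **Lemma PH.** -/
theorem t_PH : S_PH := by
  intro g J hJ hg u κ hu hκ0 hκ1 hy hη hdif hmix hquo hp1 hp2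
  have hang : ∀ k, |g.v u k| ≤ 2 * κ ∧ |g.w u k| ≤ 2 * κ := fun k =>
    ang (hg.y k) hJ hu (hy k).1 (hy k).2.1 (hy k).2.2.1 (hy k).2.2.2
  have hrad : ∀ j, |g.m u j| * √(√(g.e u j)) ≤ 4 * κ ∧ |g.l u j| * √(g.e u j) ≤ 10 * κ := fun j =>
    rad (hg.η j) hJ hu (hg.η0 j) (hη j).1 (hη j).2 hκ1
  have hΔ : ∀ i k, HasDerivAt (fun x => g.y i x - g.y k x) (g.v u i - g.v u k) u := fun i k =>
    (hd (hg.y i) hJ hu).sub (hd (hg.y k) hJ hu)
  have hΔ4 : ∀ i k, |g.v u i - g.v u k| ≤ 4 * κ := by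
    intro i k
    have := (hang i).1
    have := (hang k).1
    refine (abs_sub _ _).trans (by linarith)
  refine ⟨fun θ => ⟨by positivity, hκ1, fun j => hg.η0 j u hu, fun j => (hg.η1 j u hu).le,
    fun k => by linarith [(hang k).1], fun k => by linarith [(hang k).2],
    fun j => by linarith [(hrad j).1], fun j => (hrad j).2, ?_, ?_, ?_⟩, ?_⟩
  · intro i k
    have e1 : θ - g.y i u - (θ - g.y k u) = -(g.y i u - g.y k u) := by ring
    simp only [e1, Hf_neg]
    by_cases hik : i = k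
    · subst hik
      simp [Hf]
    · exact dif (Δ := fun x => g.y i x - g.y k x) (hΔ i k) (hg.ne i k hik u hu) (hΔ4 i k)
        (hdif i k hik)
  · intro j i
    have e1 : θ - g.y i u - (θ - g.y (g.dir j) u) = -(g.y i u - g.y (g.dir j) u) := by ring
    have e2 : θ - g.y (g.dir j) u - (θ - g.y i u) = g.y i u - g.y (g.dir j) u := by ring
    simp only [e1, e2, Hf_neg]
    by_cases hik : i = g.dir j
    · subst hik
      simp only [sub_self, sin_zero, mul_zero, abs_zero]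
      have := Hf_nonneg 0
      positivity
    · exact mix (Δ := fun x => g.y i x - g.y (g.dir j) x) (η := g.η j) (hΔ i (g.dir j))
        (hd (hg.η j) hJ hu) (hg.ne i (g.dir j) hik u hu)
        (hΔ4 i (g.dir j)) (hg.η0 j u hu) (hg.η1 j u hu).le (hmix j i hik)
  · intro i j hij
    exact quo (hd (hg.η i) hJ hu) (hd (hg.η j) hJ hu) (hg.η0 i u hu) (hg.η0 j u hu)
      (hquo i j hij)
  · have := pha (hdc hg.c hJ hu) (hg.c0 u hu) hp1 hp2
    linarith

end

end Pool.Agent.Q62.UM
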