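import Pool.Agent.Q62.UM.Stm2
import Pool.Agent.Q151.UM.PH

/-!
# Project UM: lemma PC (helper151)
-/

set_option autoImplicit false

open Real Set MeasureTheory Topology Filter
open scoped ENNReal Polynomial

namespace Pool.Agent.Q62.UM

noncomputable section

namespace PCx

variable {J : Set ℝ}

lemma oi_conn (h : OI J) : IsPreconnected J := h.2.isPreconnected

/-- a tame function is zero everywhere, positive everywhere or negative everywhere -/
lemma tri {f : ℝ → ℝ} (h : Tame f J) :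
    (∀ u ∈ J, f u = 0) ∨ (∀ u ∈ J, 0 < f u) ∨ (∀ u ∈ J, f u < 0) := by
  have := h.2 0 (by norm_num)
  simpa using this

lemma sm {f : ℝ → ℝ} (h : Tame f J) : ContDiffOn ℝ 3 f J := h.1.of_le (by norm_num)

lemma smc {f : ℝ → ℂ} (h1 : ContDiffOn ℝ 3 (fun u => (f u).re) J)
    (h2 : ContDiffOn ℝ 3 (fun u => (f u).im) J) : ContDiffOn ℝ 3 f J := by
  have e : f = fun u => (((f u).re : ℝ) : ℂ) + (((f u).im : ℝ) : ℂ) * Complex.I := by
    funext u; rw [Complex.re_add_im]
  rw [e]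
  exact (Complex.ofRealCLM.contDiff.comp_contDiffOn h1).add
    ((Complex.ofRealCLM.contDiff.comp_contDiffOn h2).mul contDiffOn_const)

/-- constant sign -/
lemma sgn (hJ : OI J) {ρ : ℝ → ℝ} (hc : ContinuousOn ρ J) (h1 : ∀ u ∈ J, ρ u ≠ 1) :
    (∀ u ∈ J, ρ u < 1) ∨ (∀ u ∈ J, 1 < ρ u) := by
  by_contra hcon
  push Not at hcon
  obtain ⟨⟨a, ha, ha1⟩, b, hb, hb1⟩ := hcon
  have himg := (oi_conn hJ).image ρ hc
  have := himg.ordConnected.out (mem_image_of_mem ρ hb) (mem_image_of_mem ρ ha) ⟨hb1, ha1⟩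
  obtain ⟨x, hx, hx1⟩ := this
  exact h1 x hx hx1

lemma norm_exp (a b : ℝ) : ‖Complex.exp (a * Complex.I) - Complex.exp (b * Complex.I)‖ =
    √(Hf (a - b)) := by
  have h1 : ‖Complex.exp (a * Complex.I) - Complex.exp (b * Complex.I)‖ ^ 2 = Hf (a - b) := by
    rw [Complex.sq_norm, Complex.normSq_apply, Complex.sub_re, Complex.sub_im,
      Complex.exp_ofReal_mul_I_re, Complex.exp_ofReal_mul_I_re, Complex.exp_ofReal_mul_I_im,
      Complex.exp_ofReal_mul_I_im]
    unfold Hf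
    rw [cos_sub]
    have := sin_sq_add_cos_sq a
    have := sin_sq_add_cos_sq b
    nlinarith
  rw [← h1, sqrt_sq (norm_nonneg _)]

/-- the bounds of `PS` -/
def Adm (J : Set ℝ) (f : ℝ → ℝ) : Prop :=
  ContinuousOn f J ∧ (∀ u ∈ J, 0 ≤ f u) ∧ (MonotoneOn f J ∨ AntitoneOn f J) ∧
    ∫⁻ u in J, ENNReal.ofReal (min (f u) 1) ≤ 10

lemma adm1 (p1 : S_P1) (hJ : OI J) {q : ℝ → ℝ} (hq : Tame q J) (hb : ∀ u ∈ J, |q u| ≤ 2) :
    Adm J (fun u => |deriv q u|) := by
  obtain ⟨a, b, c⟩ := p1 J q hJ hq hb _ (Or.inl rfl)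
  exact ⟨a, fun u _ => abs_nonneg _, b, c⟩

lemma adm2 (p1 : S_P1) (hJ : OI J) {q : ℝ → ℝ} (hq : Tame q J) (hb : ∀ u ∈ J, |q u| ≤ 2) :
    Adm J (fun u => |deriv (deriv q) u|) := by
  obtain ⟨a, b, c⟩ := p1 J q hJ hq hb _ (Or.inr rfl)
  exact ⟨a, fun u _ => abs_nonneg _, b, c⟩

lemma adm0 : Adm J (fun _ => 0) :=
  ⟨continuousOn_const, fun _ _ => le_rfl, Or.inl fun _ _ _ _ _ => le_rfl, by simp⟩

end PCx

open PCx in
/-- **Lemma PC.** -/
theorem pc (r3 : S_R3) (p1 : S_P1) (ps : S_PS) (ph : S_PH) : S_PC := by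
  classical
  intro n J D F N ρ ε q c hJ hne hN hq hR hT
  have hJo : IsOpen J := hJ.1
  -- the relation
  have hdich : ∀ i j, (∀ u ∈ J, ε i u = ε j u) ∨ (∀ u ∈ J, ε i u ≠ ε j u) := by
    intro i j
    rcases tri (hT.t6 i j) with h | h | h
    · left
      intro u hu
      have := h u hu
      rwa [norm_eq_zero, sub_eq_zero] at this
    · right
      intro u hu he
      have := h u hu
      rw [he, sub_self, norm_zero] at this
      exact lt_irrefl _ this
    · obtain ⟨u, hu⟩ := hne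
      have := h u hu
      exact absurd this (not_lt.2 (norm_nonneg _))
  let S : Setoid (Fin N) :=
    { r := fun i j => ∀ u ∈ J, ε i u = ε j u
      iseqv := ⟨fun i u _ => rfl, fun {i j} h u hu => (h u hu).symm,
        fun {i j k} h h' u hu => (h u hu).trans (h' u hu)⟩ }
  let d : ℕ := Fintype.card (Quotient S)
  let eq : Quotient S ≃ Fin d := Fintype.equivFin _
  have hd : d ≤ N := by
    have := Fintype.card_quotient_le S
    simpa using this
  let dir : Fin N → Fin d := fun j => eq (Quotient.mk S j)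
  let r : Fin d → Fin N := fun k => (eq.symm k).out
  have hdir : ∀ k, dir (r k) = k := by
    intro k
    show eq (Quotient.mk S (eq.symm k).out) = k
    rw [Quotient.out_eq, Equiv.apply_symm_apply]
  have hrd : ∀ j, ∀ u ∈ J, ε (r (dir j)) u = ε j u := by
    intro j
    have h1 : Quotient.mk S (r (dir j)) = Quotient.mk S j := by
      show Quotient.mk S (eq.symm (eq (Quotient.mk S j))).out = _
      rw [Equiv.symm_apply_apply, Quotient.out_eq]
    exact Quotient.exact h1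
  have hrne : ∀ i k, i ≠ k → ∀ u ∈ J, ε (r i) u ≠ ε (r k) u := by
    intro i k hik
    rcases hdich (r i) (r k) with h | h
    · exfalso
      apply hik
      have h1 : Quotient.mk S (r i) = Quotient.mk S (r k) := Quotient.sound h
      have h2 : dir (r i) = dir (r k) := by show eq _ = eq _; rw [h1]
      rwa [hdir, hdir] at h2
    · exact h
  -- the angles
  have hε3 : ∀ j, ContDiffOn ℝ 3 (ε j) J := fun j => smc (sm (hT.t3 j)) (sm (hT.t4 j))
  have hsub : ∀ {g : ℝ → ℝ}, True := fun {_} => trivial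
  choose y hy3 hye using fun k : Fin d => r3 J (ε (r k)) hJ hne (hε3 (r k)) (hR.ε1 (r k))
  -- the signs
  have hsg : ∀ j, ∃ s : ℝ, (s = 1 ∨ s = -1) ∧ ∀ u ∈ J,
      0 < et (ρ j) u ∧ et (ρ j) u < 1 ∧
        ρ j u = (1 - s * et (ρ j) u) / (1 + s * et (ρ j) u) := by
    intro j
    rcases sgn hJ (hR.ρc j) (hR.ρ1 j) with h | h
    · refine ⟨1, Or.inl rfl, fun u hu => ?_⟩
      have h0 := hR.ρ0 j u hu
      have h1 := h u hu
      have e : et (ρ j) u = (1 - ρ j u) / (1 + ρ j u) := by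
        unfold et; rw [abs_of_pos (by linarith)]
      rw [e]
      have hp : 0 < 1 - ρ j u := by linarith
      refine ⟨by positivity, by rw [div_lt_one (by positivity)]; linarith, ?_⟩
      field_simp
      ring
    · refine ⟨-1, Or.inr rfl, fun u hu => ?_⟩
      have h0 := hR.ρ0 j u hu
      have h1 := h u hu
      have e : et (ρ j) u = (ρ j u - 1) / (1 + ρ j u) := by
        unfold et; rw [abs_of_neg (by linarith)]; ring
      rw [e]
      have hp : 0 < ρ j u - 1 := by linarith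
      refine ⟨by positivity, by rw [div_lt_one (by positivity)]; linarith, ?_⟩
      field_simp
      ring
  choose s hs1 hs2 using hsg
  let g : Cfg := ⟨d, N, dir, y, fun j => et (ρ j), s, q, c⟩
  have hη3 : ∀ j, ContDiffOn ℝ 3 (et (ρ j)) J := by
    intro j
    have h1 := (sm (hT.t2 j)).pow 2
    refine h1.congr fun u hu => ?_
    exact (sq_sqrt (hs2 j u hu).1.le).symm
  have hreg : g.Reg J := by
    refine ⟨hy3, hη3, smc (sm hT.t12) (sm hT.t13), hR.c0, fun j u hu => (hs2 j u hu).1,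
      fun j u hu => (hs2 j u hu).2.1, hs1, ?_⟩
    intro i k hik u hu hcos
    apply hrne i k hik u hu
    rw [hye i u hu, hye k u hu]
    have h1 := norm_exp (y i u) (y k u)
    have h2 : Hf (y i u - y k u) = 0 := by
      unfold Hf
      have : cos (y i u - y k u) = 1 := hcos
      rw [this]; ring
    rw [h2, sqrt_zero, norm_eq_zero, sub_eq_zero] at h1
    exact h1
  -- the functions
  let f : ((Fin N × Fin 6) ⊕ ((Fin N × Fin N) × Fin 3)) ⊕ Fin 2 → ℝ → ℝ := fun a =>
    match a with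
    | .inl (.inl (j, i)) => ![fun u => |deriv (fun u => (ε j u).re) u|,
        fun u => |deriv (fun u => (ε j u).im) u|,
        fun u => |deriv (deriv fun u => (ε j u).re) u|,
        fun u => |deriv (deriv fun u => (ε j u).im) u|,
        fun u => |deriv (fun u => √(√(et (ρ j) u))) u|,
        fun u => |deriv (deriv fun u => √(et (ρ j) u)) u|] i
    | .inl (.inr ((i, j), k)) => ![fun u => |deriv (fun u => √‖ε i u - ε j u‖) u|,
        fun u => |deriv (fun u => et (ρ j) u / (et (ρ j) u + ‖ε i u - ε j u‖)) u|,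
        if (∀ u ∈ J, et (ρ i) u ≤ et (ρ j) u) then
          fun u => |deriv (fun u => √(et (ρ i) u / et (ρ j) u)) u| else fun _ => 0] k
    | .inr i => ![fun u => |deriv (fun u => (c u / ‖c u‖).re) u|,
        fun u => |deriv (fun u => (c u / ‖c u‖).im) u|] i
  have b3 : ∀ j, ∀ u ∈ J, |(ε j u).re| ≤ 2 := fun j u hu =>
    (Complex.abs_re_le_norm _).trans (by rw [hR.ε1 j u hu]; norm_num)
  have b4 : ∀ j, ∀ u ∈ J, |(ε j u).im| ≤ 2 := fun j u hu =>
    (Complex.abs_im_le_norm _).trans (by rw [hR.ε1 j u hu]; norm_num)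
  have b2 : ∀ j, ∀ u ∈ J, |√(et (ρ j) u)| ≤ 2 := fun j u hu => by
    rw [abs_of_nonneg (sqrt_nonneg _), sqrt_le_left (by norm_num)]
    have := (hs2 j u hu).2.1
    linarith
  have b1 : ∀ j, ∀ u ∈ J, |√(√(et (ρ j) u))| ≤ 2 := fun j u hu => by
    rw [abs_of_nonneg (sqrt_nonneg _), sqrt_le_left (by norm_num)]
    have := (le_abs_self _).trans (b2 j u hu)
    linarith
  have hnd : ∀ i j, ∀ u ∈ J, ‖ε i u - ε j u‖ ≤ 2 := fun i j u hu => by
    refine (norm_sub_le _ _).trans ?_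
    rw [hR.ε1 i u hu, hR.ε1 j u hu]; norm_num
  have b7 : ∀ i j, ∀ u ∈ J, |√‖ε i u - ε j u‖| ≤ 2 := fun i j u hu => by
    rw [abs_of_nonneg (sqrt_nonneg _), sqrt_le_left (by norm_num)]
    have := hnd i j u hu
    linarith
  have b8 : ∀ i j, ∀ u ∈ J, |et (ρ j) u / (et (ρ j) u + ‖ε i u - ε j u‖)| ≤ 2 := fun i j u hu => by
    have h0 := (hs2 j u hu).1
    have h1 := norm_nonneg (ε i u - ε j u)
    rw [abs_of_nonneg (by positivity), div_le_iff₀ (by positivity)]
    linarith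
  have b10 : ∀ u ∈ J, |(c u / ‖c u‖).re| ≤ 2 := fun u hu => by
    refine (Complex.abs_re_le_norm _).trans ?_
    rw [norm_div, Complex.norm_real, norm_norm, div_self (norm_ne_zero_iff.2 (hR.c0 u hu))]
    norm_num
  have b11 : ∀ u ∈ J, |(c u / ‖c u‖).im| ≤ 2 := fun u hu => by
    refine (Complex.abs_im_le_norm _).trans ?_
    rw [norm_div, Complex.norm_real, norm_norm, div_self (norm_ne_zero_iff.2 (hR.c0 u hu))]
    norm_num
  have hadm : ∀ a, Adm J (f a) := by
    rintro ((⟨j, i⟩ | ⟨⟨i, j⟩, k⟩) | i)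
    · fin_cases i
      · exact adm1 p1 hJ (hT.t3 j) (b3 j)
      · exact adm1 p1 hJ (hT.t4 j) (b4 j)
      · exact adm2 p1 hJ (hT.t3 j) (b3 j)
      · exact adm2 p1 hJ (hT.t4 j) (b4 j)
      · exact adm1 p1 hJ (hT.t1 j) (b1 j)
      · exact adm2 p1 hJ (hT.t2 j) (b2 j)
    · fin_cases k
      · exact adm1 p1 hJ (hT.t7 i j) (b7 i j)
      · exact adm1 p1 hJ (hT.t8 i j) (b8 i j)
      · show Adm J (if (∀ u ∈ J, et (ρ i) u ≤ et (ρ j) u) then
          fun u => |deriv (fun u => √(et (ρ i) u / et (ρ j) u)) u| else fun _ => 0)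
        split_ifs with h
        · refine adm1 p1 hJ (hT.t9 i j) fun u hu => ?_
          have h0 := (hs2 j u hu).1
          rw [abs_of_nonneg (sqrt_nonneg _), sqrt_le_left (by norm_num), div_le_iff₀ h0]
          have := h u hu
          linarith
        · exact adm0
    · fin_cases i
      · exact adm1 p1 hJ hT.t10 b10
      · exact adm1 p1 hJ hT.t11 b11
  obtain ⟨κd, κu, k1, k2, k3, k4, k5, k6, k7, k8, k9⟩ := ps _ inferInstance f J 10 hJ
    (by norm_num) hadm
  have hcard : Fintype.card (((Fin N × Fin 6) ⊕ ((Fin N × Fin N) × Fin 3)) ⊕ Fin 2) =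
      N * 6 + N * N * 3 + 2 := by simp
  have hbound : ENNReal.ofReal (10 * 10 * (Fintype.card
      (((Fin N × Fin 6) ⊕ ((Fin N × Fin N) × Fin 3)) ⊕ Fin 2) : ℝ)) ≤
      ENNReal.ofReal (1000 * (2 * (n : ℝ) + 1) ^ 2) := by
    apply ENNReal.ofReal_le_ofReal
    rw [hcard]
    have hN' : (N : ℝ) ≤ 2 * n := by exact_mod_cast hN
    have hN0 : (0 : ℝ) ≤ N := Nat.cast_nonneg N
    push_cast
    nlinarith
  refine ⟨g, hN, hd.trans hN, hq, hreg, ?_, κd, κu, k1, k2, k3, k4, k5, k6, k8.trans hbound,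
    k9.trans hbound, ?_⟩
  · intro z hz
    rw [hR.F z hz]
    show _ = c z.re * Complex.exp (q * (z.im * Complex.I)) *
      ∏ j, (Complex.exp (z.im * Complex.I) - g.root j z.re)
    congr 1
    refine Finset.prod_congr rfl fun j _ => ?_
    congr 1
    show _ = (((1 - s j * et (ρ j) z.re) / (1 + s j * et (ρ j) z.re) : ℝ) : ℂ) *
      Complex.exp (y (dir j) z.re * Complex.I)
    rw [← (hs2 j z.re hz).2.2, ← hye (dir j) z.re hz, hrd j z.re hz]
  · intro u hu hle
    have hsum := k7 u hu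
    obtain ⟨κ, hκ⟩ : ∃ κ, κ = ∑ a, f a u := ⟨_, rfl⟩
    rw [hsum, ← hκ] at hle ⊢
    have hfle : ∀ a, f a u ≤ κ := by
      intro a
      rw [hκ]
      exact Finset.single_le_sum (f := fun a => f a u) (fun b _ => (hadm b).2.1 u hu)
        (Finset.mem_univ a)
    have hκ0 : 0 ≤ κ := by
      rw [hκ]; exact Finset.sum_nonneg fun b _ => (hadm b).2.1 u hu
    have hcos : ∀ k, ∀ x ∈ J, cos (y k x) = (ε (r k) x).re := fun k x hx => by
      rw [hye k x hx, Complex.exp_ofReal_mul_I_re]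
    have hsin : ∀ k, ∀ x ∈ J, sin (y k x) = (ε (r k) x).im := fun k x hx => by
      rw [hye k x hx, Complex.exp_ofReal_mul_I_im]
    have hnrm : ∀ i k, ∀ x ∈ J, √(Hf (y i x - y k x)) = ‖ε (r i) x - ε (r k) x‖ := fun i k x hx => by
      rw [← norm_exp, hye i x hx, hye k x hx]
    have ev : ∀ {φ ψ : ℝ → ℝ}, (∀ x ∈ J, φ x = ψ x) → φ =ᶠ[𝓝 u] ψ := fun h =>
      eventually_of_mem (hJo.mem_nhds hu) h
    refine ph g J hJo hreg u κ hu hκ0 hle ?_ ?_ ?_ ?_ ?_ ?_ ?_
    · intro k
      have e1 : (fun u => cos (g.y k u)) =ᶠ[𝓝 u] fun u => (ε (r k) u).re := ev (hcos k)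
      have e2 : (fun u => sin (g.y k u)) =ᶠ[𝓝 u] fun u => (ε (r k) u).im := ev (hsin k)
      rw [e1.deriv_eq, e2.deriv_eq, e1.deriv.deriv_eq, e2.deriv.deriv_eq]
      exact ⟨hfle (.inl (.inl (r k, 0))), hfle (.inl (.inl (r k, 1))),
        hfle (.inl (.inl (r k, 2))), hfle (.inl (.inl (r k, 3)))⟩
    · intro j
      exact ⟨hfle (.inl (.inl (j, 4))), hfle (.inl (.inl (j, 5)))⟩
    · intro i k _
      have e1 : (fun u => √(√(Hf (g.y i u - g.y k u)))) =ᶠ[𝓝 u]
          fun u => √‖ε (r i) u - ε (r k) u‖ := ev fun x hx => by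
        rw [← hnrm i k x hx]
      rw [e1.deriv_eq]
      exact hfle (.inl (.inr ((r i, r k), 0)))
    · intro j i _
      have e1 : (fun u => g.η j u / (g.η j u + √(Hf (g.y i u - g.y (g.dir j) u)))) =ᶠ[𝓝 u]
          fun u => et (ρ j) u / (et (ρ j) u + ‖ε (r i) u - ε j u‖) := ev fun x hx => by
        rw [← hrd j x hx, ← hnrm i (dir j) x hx]
      rw [e1.deriv_eq]
      exact hfle (.inl (.inr ((r i, j), 1)))
    · intro i j hij
      have hall : ∀ x ∈ J, et (ρ i) x ≤ et (ρ j) x := by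
        have hij' : et (ρ i) u ≤ et (ρ j) u := hij
        rcases tri (hT.t5 i j) with h | h | h
        · intro x hx; have := h x hx; linarith
        · exfalso; have := h u hu; linarith
        · intro x hx; have := h x hx; linarith
      have h1 := hfle (.inl (.inr ((i, j), 2)))
      have h2 : f (.inl (.inr ((i, j), 2))) u =
          |deriv (fun u => √(et (ρ i) u / et (ρ j) u)) u| := by
        show (if (∀ u ∈ J, et (ρ i) u ≤ et (ρ j) u) then
          fun u => |deriv (fun u => √(et (ρ i) u / et (ρ j) u)) u| else fun _ => (0 : ℝ)) u = _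
        rw [if_pos hall]
      rw [h2] at h1
      exact h1
    · exact hfle (.inr 0)
    · exact hfle (.inr 1)

end

end Pool.Agent.Q62.UM
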